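import Mathlib

/-!
# Triangles in `K₄`-free graphs of bounded degree: basic counting
-/

open Finset

namespace Pool.Agent.H46.KT3

variable {V : Type*} [Fintype V] [DecidableEq V] (G : SimpleGraph V) [DecidableRel G.Adj]

/-- The neighbourhood of a vertex. -/
def N (x : V) : Finset V := univ.filter (fun y => G.Adj x y)

lemma mem_N {x y : V} : y ∈ N G x ↔ G.Adj x y := by simp [N]

/-- The number of neighbours of `v` in `W`. -/
def dg (W : Finset V) (v : V) : ℕ := (N G v ∩ W).card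

/-- Twice the number of edges inside `W`. -/
def TT (W : Finset V) : ℕ := ∑ v ∈ W, dg G W v

/-- No triangle inside `W`. -/
def TF (W : Finset V) : Prop :=
  ∀ u ∈ W, ∀ v ∈ W, ∀ z ∈ W, G.Adj u v → G.Adj u z → ¬ G.Adj v z

/-- `W` is an independent set. -/
def Ind (W : Finset V) : Prop := ∀ u ∈ W, ∀ v ∈ W, ¬ G.Adj u v

/-- No `K₄`. -/
def K4F : Prop := ∀ x y z w, G.Adj x y → G.Adj x z → G.Adj x w → G.Adj y z → G.Adj y w → ¬ G.Adj z w

variable {G}

lemma K4F.tf (h : K4F G) (x : V) : TF G (N G x) := by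
  intro u hu v hv z hz huv huz hvz
  rw [mem_N] at hu hv hz
  exact h x u v z hu hv hz huv huz hvz

lemma sum_swap (W U : Finset V) (f : V → ℕ) :
    ∑ u ∈ W, ∑ v ∈ N G u ∩ U, f v = ∑ v ∈ U, (N G v ∩ W).card * f v := by
  have h1 : ∀ u, ∑ v ∈ N G u ∩ U, f v = ∑ v ∈ U, if G.Adj u v then f v else 0 := by
    intro u
    rw [← sum_filter]
    apply sum_congr _ (fun _ _ => rfl)
    ext v
    simp only [mem_inter, mem_N, mem_filter]
    tauto
  simp_rw [h1]
  rw [sum_comm]
  apply sum_congr rfl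
  intro v _
  rw [← sum_filter, sum_const, smul_eq_mul]
  congr 2
  ext u
  simp only [mem_inter, mem_N, mem_filter]
  constructor
  · rintro ⟨h1, h2⟩; exact ⟨h2.symm, h1⟩
  · rintro ⟨h1, h2⟩; exact ⟨h2, h1.symm⟩

lemma sum_card_swap (W U : Finset V) :
    ∑ u ∈ W, (N G u ∩ U).card = ∑ v ∈ U, (N G v ∩ W).card := by
  have h := sum_swap (G := G) W U (fun _ => 1)
  simpa using h

lemma TT_bound (W : Finset V) (M : ℕ)
    (h : ∀ u ∈ W, ∀ v ∈ W, G.Adj u v → dg G W u + dg G W v ≤ M) :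
    2 * TT G W ≤ W.card * M := by
  have h1 : ∑ u ∈ W, ∑ v ∈ N G u ∩ W, (dg G W u + dg G W v) ≤ M * TT G W := by
    rw [TT, mul_sum]
    apply sum_le_sum
    intro u hu
    calc ∑ v ∈ N G u ∩ W, (dg G W u + dg G W v) ≤ ∑ v ∈ N G u ∩ W, M := by
          apply sum_le_sum
          intro v hv
          rw [mem_inter, mem_N] at hv
          exact h u hu v hv.2 hv.1
      _ = M * dg G W u := by rw [sum_const, smul_eq_mul, dg, mul_comm]
  have h2 : ∑ u ∈ W, ∑ v ∈ N G u ∩ W, (dg G W u + dg G W v) = 2 * ∑ u ∈ W, dg G W u ^ 2 := by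
    simp_rw [sum_add_distrib, sum_const, smul_eq_mul]
    rw [sum_swap (G := G) W W (dg G W), two_mul]
    congr 1
    · apply sum_congr rfl
      intro u _
      rw [sq]; rfl
    · apply sum_congr rfl
      intro u _
      rw [sq]; rfl
  have h3 : TT G W ^ 2 ≤ W.card * ∑ u ∈ W, dg G W u ^ 2 := sq_sum_le_card_mul_sum_sq
  rcases Nat.eq_zero_or_pos (TT G W) with h0 | hpos
  · rw [h0]; omega
  · have h4 : 2 * TT G W * TT G W ≤ W.card * M * TT G W := by
      calc 2 * TT G W * TT G W = 2 * TT G W ^ 2 := by ring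
        _ ≤ 2 * (W.card * ∑ u ∈ W, dg G W u ^ 2) := Nat.mul_le_mul_left _ h3
        _ = W.card * (2 * ∑ u ∈ W, dg G W u ^ 2) := by ring
        _ ≤ W.card * (M * TT G W) := by
            apply Nat.mul_le_mul_left
            rw [← h2]; exact h1
        _ = W.card * M * TT G W := by ring
    exact Nat.le_of_mul_le_mul_right h4 hpos

lemma TF.mono {W U : Finset V} (h : TF G W) (hU : U ⊆ W) : TF G U :=
  fun u hu v hv z hz => h u (hU hu) v (hU hv) z (hU hz)

lemma TF.disj {W : Finset V} (h : TF G W) {u v : V} (hu : u ∈ W) (hv : v ∈ W) (huv : G.Adj u v) :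
    Disjoint (N G u ∩ W) (N G v ∩ W) := by
  rw [disjoint_left]
  intro z hz hz'
  rw [mem_inter, mem_N] at hz hz'
  exact h u hu v hv z hz.2 huv hz.1 hz'.1

lemma TF.ind {W : Finset V} (h : TF G W) {u : V} (hu : u ∈ W) : Ind G (N G u ∩ W) := by
  intro v hv z hz
  rw [mem_inter, mem_N] at hv hz
  exact h u hu v hv.2 z hz.2 hv.1 hz.1

lemma mantel {W : Finset V} (h : TF G W) : 2 * TT G W ≤ W.card ^ 2 := by
  rw [sq]
  apply TT_bound
  intro u hu v hv huv
  rw [dg, dg, ← card_union_of_disjoint (h.disj hu hv huv)]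
  exact card_le_card (union_subset inter_subset_right inter_subset_right)

end Pool.Agent.H46.KT3
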