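import Pool.Agent.H46.KT3.Disch

/-!
# Vertices with a bipartite neighbourhood, and vertices with few triangles
-/

open Finset

namespace Pool.Agent.H46.KT3

variable {V : Type*} [Fintype V] [DecidableEq V] {G : SimpleGraph V} [DecidableRel G.Adj]

lemma bip_TT {W P : Finset V} (hPW : P ⊆ W) (h1 : Ind G P) (h2 : Ind G (W \ P)) :
    TT G W = 2 * ∑ v ∈ P, dg G W v := by
  have e1 : ∀ v ∈ P, dg G W v = (N G v ∩ (W \ P)).card := by
    intro v hv
    unfold dg
    congr 1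
    ext z
    simp only [mem_inter, mem_sdiff, mem_N]
    constructor
    · rintro ⟨ha, hb⟩
      exact ⟨ha, hb, fun hc => h1 v hv z hc ha⟩
    · rintro ⟨ha, hb, _⟩
      exact ⟨ha, hb⟩
  have e2 : ∀ v ∈ W \ P, dg G W v = (N G v ∩ P).card := by
    intro v hv
    unfold dg
    congr 1
    ext z
    simp only [mem_inter, mem_N]
    constructor
    · rintro ⟨ha, hb⟩
      refine ⟨ha, ?_⟩
      by_contra hc
      exact h2 v hv z (mem_sdiff.2 ⟨hb, hc⟩) ha
    · rintro ⟨ha, hb⟩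
      exact ⟨ha, hPW hb⟩
  have e3 : ∑ v ∈ W \ P, dg G W v = ∑ v ∈ P, dg G W v := by
    rw [sum_congr rfl e2, sum_congr rfl e1, sum_card_swap]
  unfold TT
  rw [← sum_sdiff hPW, e3]
  ring

lemma DD_bip' {a : ℕ} (hd : ∀ x, (N G x).card ≤ 2 * a + 1) (hK : K4F G) {x : V} {P : Finset V}
    (hP : P ⊆ N G x) (h1 : Ind G P) (h2 : Ind G (N G x \ P)) (hPa : P.card ≤ a) :
    0 ≤ DD G a x := by
  set W := N G x with hW
  have hT : T G x = 2 * ∑ v ∈ P, dg G W v := by rw [T_eq, bip_TT hP h1 h2]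
  have hsplit := sum_filter_add_sum_filter_not P (fun v => dg G W v ≤ a) (dg G W)
  set t1 := ∑ v ∈ P with dg G W v ≤ a, dg G W v with ht1
  set t2 := ∑ v ∈ P with ¬ dg G W v ≤ a, dg G W v with ht2
  have hcard := card_filter_add_card_filter_not (s := P) (fun v => dg G W v ≤ a)
  set k := (P.filter (fun v => dg G W v ≤ a)).card with hk
  set h := (P.filter (fun v => ¬ dg G W v ≤ a)).card with hh
  have hS : t2 ≤ S G a x := by
    rw [S_eq, ht2, sum_filter]
    calc ∑ v ∈ P, (if ¬ dg G W v ≤ a then dg G W v else 0)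
        = ∑ v ∈ P, (if a + 1 ≤ dg G W v then dg G W v else 0) := by
          apply sum_congr rfl
          intro v _
          apply if_congr _ rfl rfl
          omega
      _ ≤ _ := sum_le_sum_of_subset hP
  have hb1 : t1 ≤ k * a := by
    rw [ht1, hk, ← smul_eq_mul]
    apply sum_le_card_nsmul
    intro v hv
    exact (mem_filter.1 hv).2
  have hb2 : t2 ≤ h * (W \ P).card := by
    rw [ht2, hh, ← smul_eq_mul]
    apply sum_le_card_nsmul
    intro v hv
    have hvP := (mem_filter.1 hv).1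
    unfold dg
    apply card_le_card
    intro z hz
    rw [mem_inter, mem_N] at hz
    exact mem_sdiff.2 ⟨hz.2, fun hc => h1 v hvP z hc hz.1⟩
  have hq : P.card + (W \ P).card ≤ 2 * a + 1 := by
    rw [add_comm, card_sdiff_add_card_eq_card hP]
    exact hd x
  set q := (W \ P).card with hqdef
  have hge := DD_ge hd hK x
  refine le_trans ?_ hge
  rw [hT, ← hsplit]
  have i1 : (t2 : ℤ) ≤ S G a x := by exact_mod_cast hS
  have i2 : (t1 : ℤ) ≤ k * a := by exact_mod_cast hb1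
  have i3 : (t2 : ℤ) ≤ h * q := by exact_mod_cast hb2
  have i4 : (k : ℤ) + h = P.card := by exact_mod_cast hcard
  have i5 : (P.card : ℤ) + q ≤ 2 * a + 1 := by exact_mod_cast hq
  have i6 : (P.card : ℤ) ≤ a := by exact_mod_cast hPa
  have i7 : (0 : ℤ) ≤ k := by positivity
  have i8 : (0 : ℤ) ≤ h := by positivity
  have i9 : (0 : ℤ) ≤ a := by positivity
  push_cast
  have j1 : (h : ℤ) * q + k * (a + 1) ≤ a * (a + 1) := by
    have : (h : ℤ) * q ≤ h * (2 * a + 1 - (k + h)) :=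
      mul_le_mul_of_nonneg_left (by linarith) i8
    nlinarith [mul_nonneg (show (0 : ℤ) ≤ a - (k + h) by linarith)
      (show (0 : ℤ) ≤ a + 1 - h by linarith)]
  have j2 : (a : ℤ) * t2 + (a + 1) * t1 ≤ a * (a * (a + 1)) := by
    have k1 : (a : ℤ) * t2 ≤ a * (h * q) := mul_le_mul_of_nonneg_left i3 i9
    have k2 : ((a : ℤ) + 1) * t1 ≤ (a + 1) * (k * a) := mul_le_mul_of_nonneg_left i2 (by linarith)
    have k3 : (a : ℤ) * (h * q + k * (a + 1)) ≤ a * (a * (a + 1)) :=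
      mul_le_mul_of_nonneg_left j1 i9
    nlinarith
  nlinarith

lemma DD_bip {a : ℕ} (hd : ∀ x, (N G x).card ≤ 2 * a + 1) (hK : K4F G) {x : V} {P : Finset V}
    (hP : P ⊆ N G x) (h1 : Ind G P) (h2 : Ind G (N G x \ P)) :
    0 ≤ DD G a x := by
  by_cases h : P.card ≤ a
  · exact DD_bip' hd hK hP h1 h2 h
  · apply DD_bip' hd hK (P := N G x \ P) sdiff_subset h2
    · rwa [Finset.sdiff_sdiff_eq_self hP]
    · have := card_sdiff_add_card_eq_card hP
      have := hd x
      omega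

lemma DD_few {a : ℕ} (hd : ∀ x, (N G x).card ≤ 2 * a + 1) (hK : K4F G) {x : V}
    (h : T G x ≤ 2 * a ^ 2) : 0 ≤ DD G a x := by
  refine le_trans ?_ (DD_ge hd hK x)
  have i1 : (T G x : ℤ) ≤ 2 * a ^ 2 := by exact_mod_cast h
  have i2 : (0 : ℤ) ≤ S G a x := by positivity
  have i3 : (0 : ℤ) ≤ a := by positivity
  nlinarith [mul_nonneg (show (0 : ℤ) ≤ 3 * a + 3 by linarith)
    (show (0 : ℤ) ≤ 2 * a ^ 2 - T G x by linarith)]

lemma DD_few' {a r : ℕ} (hd : ∀ x, (N G x).card ≤ 2 * a + 1) (hK : K4F G) {x : V}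
    (h : T G x + 2 * r ≤ 2 * a ^ 2) : 2 * (3 * a + 3) * r ≤ DD G a x := by
  refine le_trans ?_ (DD_ge hd hK x)
  have i1 : (T G x : ℤ) + 2 * r ≤ 2 * a ^ 2 := by exact_mod_cast h
  have i2 : (0 : ℤ) ≤ S G a x := by positivity
  have i3 : (0 : ℤ) ≤ a := by positivity
  nlinarith [mul_nonneg (show (0 : ℤ) ≤ 3 * a + 3 by linarith)
    (show (0 : ℤ) ≤ 2 * a ^ 2 - T G x - 2 * r by linarith)]

end Pool.Agent.H46.KT3
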