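import Pool.Agent.H46.KT3.Struct

/-!
# The cluster of a bad vertex
-/

open Finset

namespace Pool.Agent.H46.KT3

variable {V : Type*} [Fintype V] [DecidableEq V] {G : SimpleGraph V} [DecidableRel G.Adj]

/-! ### Degrees in the five-cycle blow-up -/

namespace Str

variable {a : ℕ} {W : Finset V} {w y : V} {A B Z : Finset V}

lemma hw (h : Str G a W w y A B Z) : w ∈ W := (h.mem w).2 (Or.inl rfl)
lemma hy (h : Str G a W w y A B Z) : y ∈ W := (h.mem y).2 (Or.inr (Or.inl rfl))
lemma hA (h : Str G a W w y A B Z) {u : V} (hu : u ∈ A) : u ∈ W :=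
  (h.mem u).2 (Or.inr (Or.inr (Or.inl hu)))
lemma hB (h : Str G a W w y A B Z) {u : V} (hu : u ∈ B) : u ∈ W :=
  (h.mem u).2 (Or.inr (Or.inr (Or.inr hu)))

lemma nA (h : Str G a W w y A B Z) {u : V} (hu : u ∈ A) : N G u ∩ W = B := by
  ext v
  rw [mem_inter, mem_N, h.mem]
  constructor
  · rintro ⟨h1, rfl | rfl | h2 | h2⟩
    · exact absurd h1.symm (h.wA u hu)
    · exact absurd h1.symm (h.yA u hu)
    · exact absurd h1 (h.AA u hu v h2)
    · exact h2
  · intro hv
    exact ⟨h.AB u hu v hv, Or.inr (Or.inr (Or.inr hv))⟩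

lemma nZ (h : Str G a W w y A B Z) {u : V} (hu : u ∈ Z) : N G u ∩ W = insert w A := by
  have huB := h.ZB hu
  ext v
  rw [mem_inter, mem_N, h.mem, mem_insert]
  constructor
  · rintro ⟨h1, rfl | rfl | h2 | h2⟩
    · exact Or.inl rfl
    · exact absurd hu ((h.yZ u huB).1 h1.symm)
    · exact Or.inr h2
    · exact absurd h1 (h.BB u huB v h2)
  · rintro (rfl | hv)
    · exact ⟨((h.wZ u huB).2 hu).symm, Or.inl rfl⟩
    · exact ⟨(h.AB v hv u huB).symm, Or.inr (Or.inr (Or.inl hv))⟩

lemma nB (h : Str G a W w y A B Z) {u : V} (hu : u ∈ B) (huZ : u ∉ Z) :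
    N G u ∩ W = insert y A := by
  ext v
  rw [mem_inter, mem_N, h.mem, mem_insert]
  constructor
  · rintro ⟨h1, rfl | rfl | h2 | h2⟩
    · exact absurd ((h.wZ u hu).1 h1.symm) huZ
    · exact Or.inl rfl
    · exact Or.inr h2
    · exact absurd h1 (h.BB u hu v h2)
  · rintro (rfl | hv)
    · exact ⟨((h.yZ u hu).2 huZ).symm, Or.inr (Or.inl rfl)⟩
    · exact ⟨(h.AB v hv u hu).symm, Or.inr (Or.inr (Or.inl hv))⟩

lemma nw (h : Str G a W w y A B Z) : N G w ∩ W = insert y Z := by
  ext v
  rw [mem_inter, mem_N, h.mem, mem_insert]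
  constructor
  · rintro ⟨h1, rfl | rfl | h2 | h2⟩
    · exact absurd h1 (G.loopless.irrefl _)
    · exact Or.inl rfl
    · exact absurd h1 (h.wA v h2)
    · exact Or.inr ((h.wZ v h2).1 h1)
  · rintro (rfl | hv)
    · exact ⟨h.wy, Or.inr (Or.inl rfl)⟩
    · exact ⟨(h.wZ v (h.ZB hv)).2 hv, Or.inr (Or.inr (Or.inr (h.ZB hv)))⟩

lemma ny (h : Str G a W w y A B Z) : N G y ∩ W = insert w (B \ Z) := by
  ext v
  rw [mem_inter, mem_N, h.mem, mem_insert, mem_sdiff]
  constructor
  · rintro ⟨h1, rfl | rfl | h2 | h2⟩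
    · exact Or.inl rfl
    · exact absurd h1 (G.loopless.irrefl _)
    · exact absurd h1 (h.yA v h2)
    · exact Or.inr ⟨h2, (h.yZ v h2).1 h1⟩
  · rintro (rfl | hv)
    · exact ⟨h.wy.symm, Or.inl rfl⟩
    · exact ⟨(h.yZ v hv.1).2 hv.2, Or.inr (Or.inr (Or.inr hv.1))⟩

lemma dA (h : Str G a W w y A B Z) {u : V} (hu : u ∈ A) : (N G u ∩ W).card = a := by
  rw [h.nA hu, h.cB]

lemma dB (h : Str G a W w y A B Z) {u : V} (hu : u ∈ B) : (N G u ∩ W).card = a := by
  by_cases huZ : u ∈ Z
  · rw [h.nZ huZ, card_insert_of_notMem h.wA', h.cA]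
  · rw [h.nB hu huZ, card_insert_of_notMem h.yA', h.cA]

lemma dw (h : Str G a W w y A B Z) : (N G w ∩ W).card = Z.card + 1 := by
  rw [h.nw, card_insert_of_notMem (fun h' => h.yB' (h.ZB h'))]

lemma dy (h : Str G a W w y A B Z) : (N G y ∩ W).card + Z.card = a + 1 := by
  rw [h.ny, card_insert_of_notMem (fun h' => h.wB' (mem_sdiff.1 h').1)]
  have := card_sdiff_add_card_eq_card h.ZB
  have := h.cB
  omega

lemma tt (h : Str G a W w y A B Z) : TT G W = 2 * a ^ 2 + 2 := by
  have hW : W = insert w (insert y (A ∪ B)) := by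
    ext u; rw [h.mem]; simp only [mem_insert, mem_union]
  have h1 : y ∉ A ∪ B := by
    rw [mem_union]; rintro (h' | h')
    · exact h.yA' h'
    · exact h.yB' h'
  have h2 : w ∉ insert y (A ∪ B) := by
    rw [mem_insert, mem_union]; rintro (h' | h' | h')
    · exact G.ne_of_adj h.wy h'
    · exact h.wA' h'
    · exact h.wB' h'
  unfold TT
  have e1 : dg G W w = Z.card + 1 := h.dw
  have e2 : dg G W y + Z.card = a + 1 := h.dy
  have e3 : ∑ u ∈ A, dg G W u = A.card * a := by
    rw [← smul_eq_mul, ← sum_const]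
    exact sum_congr rfl (fun u hu => h.dA hu)
  have e4 : ∑ u ∈ B, dg G W u = B.card * a := by
    rw [← smul_eq_mul, ← sum_const]
    exact sum_congr rfl (fun u hu => h.dB hu)
  have e5 : ∑ u ∈ W, dg G W u = dg G W w + (dg G W y + (∑ u ∈ A, dg G W u + ∑ u ∈ B, dg G W u)) := by
    rw [sum_congr hW (fun u _ => rfl), sum_insert h2, sum_insert h1, sum_union h.disj]
  rw [e5, e3, e4, h.cB, e1]
  have hcA := h.cA
  have : A.card * a + a = a * a := by rw [← hcA]; ring
  nlinarith

end Str

/-! ### Light pairs -/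

/-- Every antisymmetric set of light edges in the neighbourhood of `x` is small. -/
def FewLight (G : SimpleGraph V) [DecidableRel G.Adj] (a : ℕ) (x : V) : Prop :=
  ∀ F : Finset (V × V), (∀ p ∈ F, tri G x p.1 p.2 ∧ ¬ hv G a p.1 p.2) →
    (∀ p ∈ F, p.swap ∉ F) → 2 * F.card < 3 * a + 3

lemma fewLight {a : ℕ} {x : V} (hT : T G x = 2 * a ^ 2 + 2) (hneg : DD G a x < 0) :
    FewLight G a x := by
  intro F h1 h2
  have hH : (H G a x : ℤ) > 2 * a ^ 2 - 3 * a - 1 := by
    unfold DD at hneg
    rw [hT] at hneg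
    push_cast at hneg
    have : (0 : ℤ) ≤ S G a x := by positivity
    nlinarith
  set L : Finset (V × V) := univ.filter (fun p => tri G x p.1 p.2 ∧ ¬ hv G a p.1 p.2) with hL
  have hLT : L.card + H G a x = T G x := by
    unfold H T
    rw [hL, card_filter, ← univ_product_univ, sum_product, ← sum_add_distrib]
    apply sum_congr rfl
    intro y _
    rw [← sum_add_distrib]
    apply sum_congr rfl
    intro z _
    by_cases c1 : tri G x y z <;> by_cases c2 : hv G a y z <;> simp [c1, c2]
  have hsub : F ∪ F.image Prod.swap ⊆ L := by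
    intro p hp
    rw [hL, mem_filter]
    refine ⟨mem_univ _, ?_⟩
    rw [mem_union, mem_image] at hp
    rcases hp with hp | ⟨q, hq, rfl⟩
    · exact h1 p hp
    · have := h1 q hq
      refine ⟨tri_swap this.1, fun h => this.2 (hv_comm.1 h)⟩
  have hdis : Disjoint F (F.image Prod.swap) := by
    rw [disjoint_left]
    intro p hp hp'
    rw [mem_image] at hp'
    obtain ⟨q, hq, rfl⟩ := hp'
    exact h2 q hq hp
  have hc : F.card + F.card ≤ L.card := by
    calc F.card + F.card = F.card + (F.image Prod.swap).card := by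
          rw [card_image_of_injective _ Prod.swap_injective]
      _ = (F ∪ F.image Prod.swap).card := (card_union_of_disjoint hdis).symm
      _ ≤ L.card := card_le_card hsub
  zify at hc hLT hT ⊢
  linarith

lemma heavy_eq {a : ℕ} (hd : ∀ x, (N G x).card ≤ 2 * a + 1) (hK : K4F G) {x u v : V}
    (h : tri G x u v) (hu : (N G u ∩ N G x).card = a) (hh : hv G a u v) :
    N G u \ N G x = N G u ∩ N G v ∧ (N G u \ N G x).card = a + 1 := by
  have h1 : N G u ∩ N G v ⊆ N G u \ N G x := by
    intro z hz
    rw [mem_inter, mem_N, mem_N] at hz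
    rw [mem_sdiff, mem_N, mem_N]
    exact ⟨hz.1, fun h' => hK x u v z h.1 h.2.1 h' h.2.2 hz.1 hz.2⟩
  have h2 : (N G u \ N G x).card + (N G u ∩ N G x).card = (N G u).card :=
    card_sdiff_add_card_inter _ _
  have h3 := hd u
  have h4 := card_le_card h1
  have h5 : a + 1 ≤ (N G u ∩ N G v).card := hh
  refine ⟨(eq_of_subset_of_card_le h1 (by omega)).symm, by omega⟩

lemma heavy_same {a : ℕ} (hd : ∀ x, (N G x).card ≤ 2 * a + 1) (hK : K4F G) {x u v : V}
    (h : tri G x u v) (hu : (N G u ∩ N G x).card = a) (hv' : (N G v ∩ N G x).card = a)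
    (hh : hv G a u v) : N G u \ N G x = N G v \ N G x := by
  rw [(heavy_eq hd hK h hu hh).1, (heavy_eq hd hK (tri_swap h) hv' (hv_comm.1 hh)).1, inter_comm]

/-! ### A counting lemma -/

lemma comb {β : Type*} [DecidableEq β] {A B : Finset V} (f : V → β) {a : ℕ} (ha : 9 ≤ a)
    (hA : A.card + 1 = a) (hB : B.card = a)
    (hF : 2 * ((A ×ˢ B).filter (fun p => f p.1 ≠ f p.2)).card < 3 * a + 3) :
    ∃ Q, (A.filter (fun u => f u ≠ Q)).card + (B.filter (fun u => f u ≠ Q)).card ≤ 1 := by
  have hFs : ((A ×ˢ B).filter (fun p => f p.1 ≠ f p.2)).card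
      = ∑ u ∈ A, (B.filter (fun v => f u ≠ f v)).card := by
    rw [card_filter, sum_product]
    apply sum_congr rfl
    intro u _
    rw [card_filter]
  rw [hFs] at hF
  obtain ⟨u, hu, hu1⟩ : ∃ u ∈ A, (B.filter (fun v => f u ≠ f v)).card ≤ 1 := by
    by_contra hcon
    push Not at hcon
    have h1 : A.card * 2 ≤ ∑ u ∈ A, (B.filter (fun v => f u ≠ f v)).card := by
      rw [← smul_eq_mul]
      exact card_nsmul_le_sum _ _ _ (fun u hu => hcon u hu)
    omega
  refine ⟨f u, ?_⟩
  have e1 : B.filter (fun v => f u ≠ f v) = B.filter (fun v => f v ≠ f u) := by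
    apply filter_congr
    intro v _
    exact ne_comm
  rw [e1] at hu1
  set j := (B.filter (fun v => f v ≠ f u)).card with hj
  set k := (A.filter (fun v => f v ≠ f u)).card with hk
  have hBs := card_filter_add_card_filter_not (s := B) (fun v => f v = f u)
  have hAs := card_filter_add_card_filter_not (s := A) (fun v => f v = f u)
  have hlow : k * (a - j) + (a - 1 - k) * j ≤ ∑ u ∈ A, (B.filter (fun v => f u ≠ f v)).card := by
    have h1 : ∑ v ∈ A, (if f v ≠ f u then a - j else j) = k * (a - j) + (a - 1 - k) * j := by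
      rw [sum_ite, sum_const, sum_const, smul_eq_mul, smul_eq_mul]
      congr 2
      have : (A.filter (fun v => ¬ f v ≠ f u)) = A.filter (fun v => f v = f u) := by
        apply filter_congr; intro v _; exact not_not
      rw [this]
      have : k = (A.filter (fun v => ¬ f v = f u)).card := rfl
      omega
    rw [← h1]
    apply sum_le_sum
    intro v hv
    split_ifs with h
    · have h2 : B.filter (fun z => f z = f u) ⊆ B.filter (fun z => f v ≠ f z) := by
        intro z hz
        rw [mem_filter] at hz ⊢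
        exact ⟨hz.1, fun h' => h (h'.trans hz.2)⟩
      have h3 := card_le_card h2
      have : j = (B.filter (fun v => ¬ f v = f u)).card := rfl
      omega
    · push Not at h
      rw [h, e1]
  rcases Nat.eq_zero_or_pos j with h0 | hpos
  · rw [h0] at hlow ⊢
    simp only [Nat.sub_zero, mul_zero, add_zero] at hlow ⊢
    by_contra hcon
    push Not at hcon
    have : 2 * a ≤ k * a := Nat.mul_le_mul_right _ hcon
    omega
  · have h1 : j = 1 := by omega
    rw [h1] at hlow ⊢
    by_contra hcon
    have hk1 : 1 ≤ k := by omega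
    have hkA : k ≤ A.card := card_le_card (filter_subset _ _)
    obtain ⟨i, hi⟩ : ∃ i, k = i + 1 := ⟨k - 1, by omega⟩
    obtain ⟨b, hb⟩ : ∃ b, a = b + 2 := ⟨a - 2, by omega⟩
    have h2 : a - 1 = b + 1 := by omega
    rw [h2, mul_one] at hlow
    have h3 : k * (b + 1) + (b + 1 - k) = k * b + (b + 1) := by
      have : k ≤ b + 1 := by omega
      rw [mul_add, mul_one]
      omega
    rw [h3] at hlow
    have h4 : 1 * b ≤ k * b := Nat.mul_le_mul_right _ hk1
    omega

/-! ### The cluster -/

/-- The cluster of a bad vertex `x`. -/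
structure Clu (G : SimpleGraph V) [DecidableRel G.Adj] (a : ℕ) (x w y e : V)
    (A B Z Q : Finset V) : Prop where
  str : Str G a (N G x) w y A B Z
  cQ : Q.card = a + 1
  xQ : x ∈ Q
  iQ : Ind G Q
  dQ : Disjoint Q (N G x)
  outA : ∀ v ∈ A, v ≠ e → N G v \ N G x = Q
  outB : ∀ v ∈ B, v ≠ e → N G v \ N G x = Q

lemma mkClu {a : ℕ} (ha : 9 ≤ a) (hd : ∀ x, (N G x).card ≤ 2 * a + 1) (hK : K4F G)
    {x w y e : V} {A B Z Q : Finset V} (h : Str G a (N G x) w y A B Z) (hF : FewLight G a x)
    (oA : ∀ v ∈ A, v ≠ e → N G v \ N G x = Q) (oB : ∀ v ∈ B, v ≠ e → N G v \ N G x = Q) :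
    Clu G a x w y e A B Z Q := by
  obtain ⟨u, hu, v, hv', hue, hve, hh⟩ : ∃ u ∈ A, ∃ v ∈ B, u ≠ e ∧ v ≠ e ∧ hv G a u v := by
    by_contra hcon
    push Not at hcon
    have h1 := hF ((A.erase e) ×ˢ (B.erase e)) (by
      rintro ⟨u, v⟩ hp
      rw [mem_product, mem_erase, mem_erase] at hp
      refine ⟨⟨(mem_N G).1 (h.hA hp.1.2), (mem_N G).1 (h.hB hp.2.2), h.AB _ hp.1.2 _ hp.2.2⟩, ?_⟩
      exact hcon u hp.1.2 v hp.2.2 hp.1.1 hp.2.1) (by
      rintro ⟨u, v⟩ hp hp'
      rw [mem_product, mem_erase, mem_erase] at hp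
      rw [Prod.swap, mem_product, mem_erase, mem_erase] at hp'
      exact disjoint_left.1 h.disj hp.1.2 hp'.2.2)
    rw [card_product] at h1
    have h2 : a - 2 ≤ (A.erase e).card := by
      have := pred_card_le_card_erase (s := A) (a := e)
      have := h.cA
      omega
    have h3 : a - 1 ≤ (B.erase e).card := by
      have := pred_card_le_card_erase (s := B) (a := e)
      have := h.cB
      omega
    have h4 := Nat.mul_le_mul h2 h3
    obtain ⟨b, rfl⟩ : ∃ b, a = b + 9 := ⟨a - 9, by omega⟩
    rw [show b + 9 - 2 = b + 7 by omega, show b + 9 - 1 = b + 8 by omega] at h4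
    nlinarith
  have ht : tri G x u v := ⟨(mem_N G).1 (h.hA hu), (mem_N G).1 (h.hB hv'), h.AB u hu v hv'⟩
  have h1 := heavy_eq hd hK ht (h.dA hu) hh
  have hQ : Q = N G u \ N G x := (oA u hu hue).symm
  have hQv : Q = N G v \ N G x := (oB v hv' hve).symm
  refine ⟨h, ?_, ?_, ?_, ?_, oA, oB⟩
  · rw [hQ, h1.2]
  · rw [hQ, mem_sdiff, mem_N, mem_N]
    exact ⟨ht.1.symm, G.loopless.irrefl _⟩
  · intro q hq q' hq' hqq
    rw [hQ, h1.1, mem_inter, mem_N, mem_N] at hq hq'
    exact hK u v q q' ht.2.2 hq.1 hq'.1 hq.2 hq'.2 hqq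
  · rw [hQ]
    exact sdiff_disjoint

lemma exists_clu {a : ℕ} (ha : 9 ≤ a) (hd : ∀ x, (N G x).card ≤ 2 * a + 1) (hK : K4F G)
    {x w y : V} {A B Z : Finset V} (h : Str G a (N G x) w y A B Z) (hF : FewLight G a x) :
    ∃ y e A B Z Q, Clu G a x w y e A B Z Q ∧ ∃ z ∈ Z, z ≠ e := by
  have hlight : ∀ u ∈ A, ∀ v ∈ B, N G u \ N G x ≠ N G v \ N G x → ¬ hv G a u v := by
    intro u hu v hv' hne hh
    exact hne (heavy_same hd hK ⟨(mem_N G).1 (h.hA hu), (mem_N G).1 (h.hB hv'), h.AB u hu v hv'⟩
      (h.dA hu) (h.dB hv') hh)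
  have h1 := hF ((A ×ˢ B).filter (fun p => N G p.1 \ N G x ≠ N G p.2 \ N G x)) (by
      rintro ⟨u, v⟩ hp
      rw [mem_filter, mem_product] at hp
      refine ⟨⟨(mem_N G).1 (h.hA hp.1.1), (mem_N G).1 (h.hB hp.1.2), h.AB _ hp.1.1 _ hp.1.2⟩, ?_⟩
      exact hlight u hp.1.1 v hp.1.2 hp.2) (by
      rintro ⟨u, v⟩ hp hp'
      rw [mem_filter, mem_product] at hp hp'
      exact disjoint_left.1 h.disj hp.1.1 hp'.1.2)
  obtain ⟨Q, hQ⟩ := comb (fun u => N G u \ N G x) ha h.cA h.cB h1
  have hex : ∃ e, (∀ v ∈ A, v ≠ e → N G v \ N G x = Q) ∧ (∀ v ∈ B, v ≠ e → N G v \ N G x = Q) := by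
    rcases Nat.eq_zero_or_pos (A.filter (fun u => N G u \ N G x ≠ Q)).card with h2 | h2
    · have hA0 := card_eq_zero.1 h2
      rcases Nat.eq_zero_or_pos (B.filter (fun u => N G u \ N G x ≠ Q)).card with h3 | h3
      · have hB0 := card_eq_zero.1 h3
        refine ⟨x, ?_, ?_⟩
        · intro v hv' _
          by_contra hne
          have : v ∈ A.filter (fun u => N G u \ N G x ≠ Q) := mem_filter.2 ⟨hv', hne⟩
          rw [hA0] at this
          exact absurd this (notMem_empty _)
        · intro v hv' _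
          by_contra hne
          have : v ∈ B.filter (fun u => N G u \ N G x ≠ Q) := mem_filter.2 ⟨hv', hne⟩
          rw [hB0] at this
          exact absurd this (notMem_empty _)
      · obtain ⟨e, he⟩ := card_eq_one.1 (show (B.filter (fun u => N G u \ N G x ≠ Q)).card = 1
          by omega)
        refine ⟨e, ?_, ?_⟩
        · intro v hv' _
          by_contra hne
          have : v ∈ A.filter (fun u => N G u \ N G x ≠ Q) := mem_filter.2 ⟨hv', hne⟩
          rw [hA0] at this
          exact absurd this (notMem_empty _)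
        · intro v hv' hve
          by_contra hne
          have : v ∈ B.filter (fun u => N G u \ N G x ≠ Q) := mem_filter.2 ⟨hv', hne⟩
          rw [he, mem_singleton] at this
          exact hve this
    · obtain ⟨e, he⟩ := card_eq_one.1 (show (A.filter (fun u => N G u \ N G x ≠ Q)).card = 1
          by omega)
      have hB0 := card_eq_zero.1 (show (B.filter (fun u => N G u \ N G x ≠ Q)).card = 0
          by omega)
      refine ⟨e, ?_, ?_⟩
      · intro v hv' hve
        by_contra hne
        have : v ∈ A.filter (fun u => N G u \ N G x ≠ Q) := mem_filter.2 ⟨hv', hne⟩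
        rw [he, mem_singleton] at this
        exact hve this
      · intro v hv' _
        by_contra hne
        have : v ∈ B.filter (fun u => N G u \ N G x ≠ Q) := mem_filter.2 ⟨hv', hne⟩
        rw [hB0] at this
        exact absurd this (notMem_empty _)
  obtain ⟨e, oA, oB⟩ := hex
  by_cases hz : ∃ z ∈ Z, z ≠ e
  · exact ⟨y, e, A, B, Z, Q, mkClu ha hd hK h hF oA oB, hz⟩
  push Not at hz
  have hZe : Z = {e} := by
    obtain ⟨z, hz'⟩ := h.Z0
    ext u
    rw [mem_singleton]
    constructor
    · exact hz u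
    · rintro rfl
      rw [← hz z hz']; exact hz'
  have heZ : e ∈ Z := by rw [hZe]; exact mem_singleton_self _
  have heB : e ∈ B := h.ZB heZ
  by_cases hfe : N G e \ N G x = Q
  · refine ⟨y, x, A, B, Z, Q, mkClu ha hd hK h hF ?_ ?_, e, heZ, ?_⟩
    · intro v hv' _
      exact oA v hv' (fun h' => disjoint_left.1 h.disj hv' (h' ▸ heB))
    · intro v hv' _
      by_cases hve : v = e
      · rw [hve]; exact hfe
      · exact oB v hv' hve
    · rintro rfl
      have := h.hB heB
      rw [mem_N] at this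
      exact G.loopless.irrefl _ this
  · have hy : ∃ b ∈ B \ Z, hv G a y b := by
      by_contra hcon
      push Not at hcon
      have h2 := hF ((A ×ˢ {e}) ∪ ({y} ×ˢ (B \ Z))) (by
        rintro ⟨u, v⟩ hp
        rw [mem_union, mem_product, mem_product, mem_singleton, mem_singleton] at hp
        rcases hp with ⟨hp1, hp2⟩ | ⟨hp1, hp2⟩
        · dsimp only at hp1 hp2 ⊢
          subst hp2
          refine ⟨⟨(mem_N G).1 (h.hA hp1), (mem_N G).1 (h.hB heB), h.AB _ hp1 _ heB⟩, ?_⟩
          apply hlight u hp1 v heB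
          rw [oA u hp1 (fun h' => disjoint_left.1 h.disj hp1 (h' ▸ heB))]
          exact fun h' => hfe h'.symm
        · dsimp only at hp1 hp2 ⊢
          subst hp1
          have hp3 := mem_sdiff.1 hp2
          refine ⟨⟨(mem_N G).1 h.hy, (mem_N G).1 (h.hB hp3.1), (h.yZ v hp3.1).2 hp3.2⟩, ?_⟩
          exact hcon v hp2) (by
        rintro ⟨u, v⟩ hp hp'
        rw [mem_union, mem_product, mem_product, mem_singleton, mem_singleton] at hp
        rw [Prod.swap, mem_union, mem_product, mem_product, mem_singleton, mem_singleton] at hp'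
        dsimp only at hp hp'
        rcases hp with ⟨hp1, hp2⟩ | ⟨hp1, hp2⟩
        · rcases hp' with ⟨hp3, hp4⟩ | ⟨hp3, hp4⟩
          · exact disjoint_left.1 h.disj hp3 (hp2 ▸ heB)
          · exact h.yB' (hp3 ▸ hp2 ▸ heB)
        · rcases hp' with ⟨hp3, hp4⟩ | ⟨hp3, hp4⟩
          · exact disjoint_left.1 h.disj hp3 (mem_sdiff.1 hp2).1
          · exact h.yB' (hp1 ▸ (mem_sdiff.1 hp4).1))
      have h3 : Disjoint (A ×ˢ ({e} : Finset V)) (({y} : Finset V) ×ˢ (B \ Z)) := by
        rw [disjoint_left]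
        rintro ⟨u, v⟩ hp hp'
        rw [mem_product, mem_singleton] at hp hp'
        dsimp only at hp hp'
        exact h.yA' (hp'.1 ▸ hp.1)
      rw [card_union_of_disjoint h3, card_product, card_product, card_singleton,
        card_singleton] at h2
      have h4 := card_sdiff_add_card_eq_card h.ZB
      have h5 : Z.card = 1 := by rw [hZe, card_singleton]
      have h6 := h.cA
      have h7 := h.cB
      omega
    obtain ⟨b, hb, hyb⟩ := hy
    have hb' := mem_sdiff.1 hb
    have h5 : Z.card = 1 := by rw [hZe, card_singleton]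
    have hbe : b ≠ e := fun h' => hb'.2 (h' ▸ heZ)
    have hfy : N G y \ N G x = Q := by
      rw [← oB b hb'.1 hbe]
      apply heavy_same hd hK
        ⟨(mem_N G).1 h.hy, (mem_N G).1 (h.hB hb'.1), (h.yZ b hb'.1).2 hb'.2⟩ _ (h.dB hb'.1) hyb
      have := h.dy
      omega
    have hstr : Str G a (N G x) w e (B \ Z) (insert y A) {y} := by
      have hBZ : ∀ u, u ∈ B \ Z ↔ u ∈ B ∧ u ≠ e := fun u => by
        rw [mem_sdiff, hZe, mem_singleton]
      constructor
      · intro u
        rw [h.mem, hBZ, mem_insert]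
        constructor
        · rintro (h' | h' | h' | h')
          · exact Or.inl h'
          · exact Or.inr (Or.inr (Or.inr (Or.inl h')))
          · exact Or.inr (Or.inr (Or.inr (Or.inr h')))
          · by_cases hue : u = e
            · exact Or.inr (Or.inl hue)
            · exact Or.inr (Or.inr (Or.inl ⟨h', hue⟩))
        · rintro (h' | h' | h' | h' | h')
          · exact Or.inl h'
          · rw [h']; exact Or.inr (Or.inr (Or.inr heB))
          · exact Or.inr (Or.inr (Or.inr h'.1))
          · exact Or.inr (Or.inl h')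
          · exact Or.inr (Or.inr (Or.inl h'))
      · exact (h.wZ e heB).2 heZ
      · rw [hBZ]; exact fun h' => h.wB' h'.1
      · rw [mem_insert]
        rintro (h' | h')
        · exact G.ne_of_adj h.wy h'
        · exact h.wA' h'
      · rw [hBZ]; exact fun h' => h'.2 rfl
      · rw [mem_insert]
        rintro (h' | h')
        · exact h.yB' (h' ▸ heB)
        · exact disjoint_left.1 h.disj h' heB
      · rw [disjoint_left]
        intro u hu hu'
        rw [hBZ] at hu
        rw [mem_insert] at hu'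
        rcases hu' with h' | h'
        · exact h.yB' (h' ▸ hu.1)
        · exact disjoint_left.1 h.disj h' hu.1
      · have := card_sdiff_add_card_eq_card h.ZB
        have := h.cB
        omega
      · rw [card_insert_of_notMem h.yA', h.cA]
      · rw [singleton_subset_iff]; exact mem_insert_self _ _
      · exact singleton_nonempty _
      · intro u hu v hv'
        rw [hBZ] at hu hv'
        exact h.BB u hu.1 v hv'.1
      · intro u hu v hv' huv
        rw [mem_insert] at hu hv'
        rcases hu with rfl | hu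
        · rcases hv' with rfl | hv'
          · exact G.loopless.irrefl _ huv
          · exact h.yA v hv' huv
        · rcases hv' with rfl | hv'
          · exact h.yA u hu huv.symm
          · exact h.AA u hu v hv' huv
      · intro u hu v hv'
        rw [mem_sdiff] at hu
        rw [mem_insert] at hv'
        rcases hv' with rfl | hv'
        · exact ((h.yZ u hu.1).2 hu.2).symm
        · exact (h.AB v hv' u hu.1).symm
      · intro u hu hwu
        rw [mem_sdiff] at hu
        exact hu.2 ((h.wZ u hu.1).1 hwu)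
      · intro u hu
        rw [mem_singleton]
        rw [mem_insert] at hu
        constructor
        · intro hwu
          rcases hu with hu | hu
          · exact hu
          · exact absurd hwu (h.wA u hu)
        · rintro rfl
          exact h.wy
      · intro u hu
        rw [mem_sdiff] at hu
        exact h.BB e heB u hu.1
      · intro u hu
        rw [mem_singleton]
        rw [mem_insert] at hu
        constructor
        · rintro h1 rfl
          exact (h.yZ e heB).1 h1.symm heZ
        · intro hne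
          rcases hu with hu | hu
          · exact absurd hu hne
          · exact (h.AB u hu e heB).symm
      · rw [card_singleton]; omega
    refine ⟨e, x, B \ Z, insert y A, {y}, Q, mkClu ha hd hK hstr hF ?_ ?_, y,
      mem_singleton_self _, ?_⟩
    · intro v hv' _
      rw [mem_sdiff] at hv'
      exact oB v hv'.1 (fun h' => hv'.2 (h' ▸ heZ))
    · intro v hv' _
      rw [mem_insert] at hv'
      rcases hv' with rfl | hv'
      · exact hfy
      · exact oA v hv' (fun h' => disjoint_left.1 h.disj hv' (h' ▸ heB))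
    · rintro rfl
      have := h.hy
      rw [mem_N] at this
      exact G.loopless.irrefl _ this

end Pool.Agent.H46.KT3
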