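import Pool.Agent.H46.KT3.Clu

/-!
# Interaction of clusters and the bound at the receiving vertex
-/

open Finset

namespace Pool.Agent.H46.KT3

variable {V : Type*} [Fintype V] [DecidableEq V] {G : SimpleGraph V} [DecidableRel G.Adj]

lemma exists_ne_ne {A : Finset V} (hA : 3 ≤ A.card) (e e' : V) : ∃ u ∈ A, u ≠ e ∧ u ≠ e' := by
  have h1 : 0 < ((A.erase e).erase e').card := by
    have := pred_card_le_card_erase (s := A) (a := e)
    have := pred_card_le_card_erase (s := A.erase e) (a := e')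
    omega
  obtain ⟨u, hu⟩ := card_pos.1 h1
  rw [mem_erase, mem_erase] at hu
  exact ⟨u, hu.2.2, hu.2.1, hu.1⟩

section

variable {a : ℕ} {x w y e x' y' e' : V} {A B Z Q A' B' Z' Q' : Finset V}

lemma Clu.adjA (c : Clu G a x w y e A B Z Q) {v q : V} (hv : v ∈ A) (hve : v ≠ e) (hq : q ∈ Q) :
    G.Adj v q := by
  rw [← c.outA v hv hve, mem_sdiff, mem_N] at hq
  exact hq.1

lemma Clu.adjB (c : Clu G a x w y e A B Z Q) {v q : V} (hv : v ∈ B) (hve : v ≠ e) (hq : q ∈ Q) :
    G.Adj v q := by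
  rw [← c.outB v hv hve, mem_sdiff, mem_N] at hq
  exact hq.1

/-- A neighbour of a good vertex of `Z`. -/
lemma Clu.nz (c : Clu G a x w y e A B Z Q) {z v : V} (hz : z ∈ Z) (hze : z ≠ e)
    (hv : G.Adj z v) : v = w ∨ v ∈ A ∨ v ∈ Q := by
  by_cases h : v ∈ N G x
  · have : v ∈ N G z ∩ N G x := mem_inter.2 ⟨(mem_N G).2 hv, h⟩
    rw [c.str.nZ hz, mem_insert] at this
    tauto
  · have : v ∈ N G z \ N G x := mem_sdiff.2 ⟨(mem_N G).2 hv, h⟩
    rw [c.outB z (c.str.ZB hz) hze] at this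
    tauto

lemma cross (ha : 4 ≤ a) (c : Clu G a x w y e A B Z Q) (c' : Clu G a x' w y' e' A' B' Z' Q')
    {z z' : V} (hz : z ∈ Z) (hze : z ≠ e) (hz' : z' ∈ Z') (hze' : z' ≠ e') : z ∉ Q' := by
  intro hzQ
  have hzz : G.Adj z z' := (c'.adjB (c'.str.ZB hz') hze' hzQ).symm
  have hz'B := c'.str.ZB hz'
  have hz'Q : z' ∈ Q := by
    rcases c.nz hz hze hzz with h | h | h
    · exact absurd (h ▸ hz'B) c'.str.wB'
    · exact absurd ((c'.str.wZ z' hz'B).2 hz') (c.str.wA z' h)
    · exact h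
  obtain ⟨u, hu, hue, hue'⟩ := exists_ne_ne (A := A') (by have := c'.str.cA; omega) e e'
  have huz : G.Adj z u := (c'.adjA hu hue' hzQ).symm
  have huA : u ∈ A := by
    rcases c.nz hz hze huz with h | h | h
    · exact absurd (h ▸ hu) c'.str.wA'
    · exact h
    · exact absurd (c'.str.AB u hu z' hz'B) (c.iQ u h z' hz'Q)
  have hsub : Q' ⊆ B := by
    intro q hq
    have huq : G.Adj u q := c'.adjA hu hue' hq
    by_cases h : q ∈ N G x
    · have : q ∈ N G u ∩ N G x := mem_inter.2 ⟨(mem_N G).2 huq, h⟩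
      rwa [c.str.nA huA] at this
    · have : q ∈ N G u \ N G x := mem_sdiff.2 ⟨(mem_N G).2 huq, h⟩
      rw [c.outA u huA hue] at this
      exact absurd (c.adjB (c.str.ZB hz) hze this) (c'.iQ z hzQ q hq)
  have := card_le_card hsub
  rw [c'.cQ, c.str.cB] at this
  omega

lemma Clu.wx (c : Clu G a x w y e A B Z Q) : G.Adj w x :=
  ((mem_N G).1 c.str.hw).symm

lemma Clu.cd_le (hd : ∀ x, (N G x).card ≤ 2 * a + 1) (c : Clu G a x w y e A B Z Q) {q : V}
    (hq : q ∈ Q) (hqw : G.Adj w q) : (N G q ∩ N G w).card ≤ Z.card + 2 := by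
  have h1 : insert w ((A ∪ B).erase e) ⊆ N G q := by
    intro v hv
    rw [mem_insert, mem_erase, mem_union] at hv
    rw [mem_N]
    rcases hv with rfl | ⟨hve, hv | hv⟩
    · exact hqw.symm
    · exact (c.adjA hv hve hq).symm
    · exact (c.adjB hv hve hq).symm
  have h2 : N G q ∩ N G w ⊆ Z ∪ (N G q \ insert w ((A ∪ B).erase e)) := by
    intro v hv
    rw [mem_inter, mem_N, mem_N] at hv
    rw [mem_union, mem_sdiff, mem_N, mem_insert, mem_erase, mem_union]
    by_cases hB : v ∈ B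
    · left; exact (c.str.wZ v hB).1 hv.2
    · right
      refine ⟨hv.1, ?_⟩
      rintro (h | ⟨_, h | h⟩)
      · rw [h] at hv
        exact G.loopless.irrefl _ hv.2
      · exact c.str.wA v h hv.2
      · exact hB h
  have h3 : (A ∪ B).card + 1 = 2 * a := by
    rw [card_union_of_disjoint c.str.disj]
    have := c.str.cA
    have := c.str.cB
    omega
  have h4 : w ∉ (A ∪ B).erase e := by
    rw [mem_erase, mem_union]
    rintro ⟨_, h | h⟩
    · exact c.str.wA' h
    · exact c.str.wB' h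
  have h5 : (A ∪ B).card - 1 ≤ ((A ∪ B).erase e).card := pred_card_le_card_erase
  have h6 := card_insert_of_notMem h4
  have h7 := card_sdiff_add_card_eq_card h1
  have h8 := hd q
  have h9 := card_le_card h2
  have h10 := card_union_le Z (N G q \ insert w ((A ∪ B).erase e))
  omega

lemma Clu.cd_x (c : Clu G a x w y e A B Z Q) : (N G x ∩ N G w).card = Z.card + 1 := by
  rw [inter_comm]
  exact c.str.dw

end

/-! ### The bound at `w` -/

/-- `q` belongs to the `Q`-set of some cluster attached to `w`. -/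
def QQ (G : SimpleGraph V) [DecidableRel G.Adj] (a : ℕ) (w q : V) : Prop :=
  ∃ x y e A B Z Q, Clu G a x w y e A B Z Q ∧ (∃ z ∈ Z, z ≠ e) ∧ q ∈ Q

lemma TT_even (W : Finset V) : ∃ k, TT G W = 2 * k := by
  induction W using Finset.induction_on with
  | empty => exact ⟨0, by simp [TT]⟩
  | insert v W hv ih =>
    obtain ⟨k, hk⟩ := ih
    rw [TT_insert hv, hk]
    exact ⟨k + (N G v ∩ W).card, by ring⟩

lemma TT_split {W X : Finset V} (hX : X ⊆ W) :
    TT G W = ∑ v ∈ X, dg G W v + ∑ v ∈ X, (N G v ∩ (W \ X)).card + TT G (W \ X) := by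
  have h1 : ∀ v, dg G W v = (N G v ∩ X).card + dg G (W \ X) v := by
    intro v
    unfold dg
    rw [← card_union_of_disjoint]
    · congr 1
      rw [← inter_union_distrib_left, union_sdiff_of_subset hX]
    · rw [disjoint_left]
      intro z hz hz'
      rw [mem_inter] at hz hz'
      exact (mem_sdiff.1 hz'.2).2 hz.2
  have h2 : ∑ v ∈ W \ X, dg G W v = ∑ v ∈ X, (N G v ∩ (W \ X)).card + TT G (W \ X) := by
    rw [sum_congr rfl (fun v _ => h1 v), sum_add_distrib, sum_card_swap]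
    rfl
  unfold TT
  rw [← sum_sdiff hX, h2]
  unfold TT
  ring

lemma num_w {a f l L p r σ τ m t : ℕ} (ha : 13 ≤ a) (hl : 1 ≤ l) (hl2 : 2 * l ≤ a) (hL1 : 1 ≤ L)
    (hL2 : l ≤ L + 1) (hL3 : L ≤ l) (hfs : f + p + L ≤ 2 * a + 1) (hr : r ≤ f)
    (h1 : σ + r ≤ f * (l + 2)) (h2 : τ ≤ σ) (h3 : τ ≤ f * (p + L)) (h4 : 2 * m ≤ p ^ 2)
    (ht : t = σ + τ + m) : t + 2 * r ≤ 2 * a ^ 2 := by
  subst ht
  have V1 : 2 * (σ + τ + m) + 4 * r ≤ 4 * (f * (l + 2)) + p ^ 2 := by omega
  have V2 : 2 * (σ + τ + m) + 4 * r ≤ 2 * (f * (l + 3 + p + L)) + p ^ 2 := by nlinarith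
  suffices h : 2 * (σ + τ + m) + 4 * r ≤ 4 * a ^ 2 by omega
  rcases Nat.lt_or_ge l 2 with hl' | hl'
  · have : l = 1 := by omega
    subst this
    refine V1.trans ?_
    zify at *
    nlinarith [mul_nonneg (show (0 : ℤ) ≤ p by positivity) (show (0 : ℤ) ≤ 2 * a - p - f by linarith),
      mul_nonneg (show (0 : ℤ) ≤ f by positivity) (show (0 : ℤ) ≤ 2 * a - p - f by linarith),
      mul_nonneg (show (0 : ℤ) ≤ f by positivity) (show (0 : ℤ) ≤ (a : ℤ) - 13 by linarith)]
  rcases Nat.lt_or_ge p 2 with hp | hp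
  · refine V2.trans ?_
    zify at *
    have hp0 : (0 : ℤ) ≤ p := by positivity
    have hf0 : (0 : ℤ) ≤ f := by positivity
    have k1 : (f : ℤ) * (l + 3 + p + L) ≤ (2 * a + 1 - L - p) * (l + 3 + p + L) :=
      mul_le_mul_of_nonneg_right (by linarith) (by linarith)
    have k2 : (p : ℤ) ^ 2 ≤ 1 := by nlinarith
    have hLl : L = l ∨ L + 1 = l := by omega
    have hpp : p = 0 ∨ p = 1 := by omega
    have k3 : (0 : ℤ) ≤ (a - 2 * l) * (a - l) := mul_nonneg (by linarith) (by linarith)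
    rcases hLl with rfl | rfl
    · rcases hpp with rfl | rfl
      · push_cast at *
        nlinarith
      · push_cast at *
        nlinarith
    · rcases hpp with rfl | rfl
      · push_cast at *
        nlinarith
      · push_cast at *
        nlinarith
  · refine V1.trans ?_
    zify at *
    have hf0 : (0 : ℤ) ≤ f := by positivity
    have k1 : (f : ℤ) * (l + 2) ≤ (2 * a + 2 - l - p) * (l + 2) :=
      mul_le_mul_of_nonneg_right (by linarith) (by linarith)
    -- endpoints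
    have e1 : 4 * ((2 * a - l : ℤ) * (l + 2)) + 4 ≤ 4 * a ^ 2 := by
      nlinarith [mul_nonneg (show (0 : ℤ) ≤ a - 2 * l by linarith) (show (0 : ℤ) ≤ (a : ℤ) - 1 by linarith)]
    have e2 : (2 * a + 2 - l : ℤ) ^ 2 ≤ 4 * a ^ 2 := by
      nlinarith
    have hP : (0 : ℤ) ≤ 2 * a + 2 - l - p := by linarith
    have hP2 : (0 : ℤ) < 2 * a - l := by linarith
    have k2 : (2 * a - l : ℤ) * (4 * ((2 * a + 2 - l - p) * (l + 2)) + p ^ 2)
        ≤ (2 * a - l) * (4 * a ^ 2) := by
      have i1 := mul_le_mul_of_nonneg_left e1 hP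
      have i2 := mul_le_mul_of_nonneg_left e2 (show (0 : ℤ) ≤ p - 2 by linarith)
      have i3 : (0 : ℤ) ≤ (2 * a - l) * ((p - 2) * (2 * a + 2 - l - p)) :=
        mul_nonneg hP2.le (mul_nonneg (by linarith) hP)
      nlinarith
    have k3 := le_of_mul_le_mul_left k2 hP2
    linarith

open Classical in
lemma wbound {a : ℕ} (ha : 13 ≤ a) (hd : ∀ x, (N G x).card ≤ 2 * a + 1) (hK : K4F G) {w : V}
    {R : Finset V} (hR0 : R.Nonempty)
    (hR : ∀ x ∈ R, ∃ y e A B Z Q, Clu G a x w y e A B Z Q ∧ ∃ z ∈ Z, z ≠ e) :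
    T G w + 2 * R.card ≤ 2 * a ^ 2 := by
  set X := (N G w).filter (fun q => QQ G a w q) with hX
  have hXs : X ⊆ N G w := filter_subset _ _
  have hRX : R ⊆ X := by
    intro x hx
    obtain ⟨y, e, A, B, Z, Q, c, hz⟩ := hR x hx
    rw [hX, mem_filter, mem_N]
    exact ⟨c.wx, x, y, e, A, B, Z, Q, c, hz, c.xQ⟩
  -- the cluster with the largest `Z`
  obtain ⟨x, y, e, A, B, Z, Q, c, ⟨z, hz, hze⟩, hmax⟩ : ∃ x y e A B Z Q, Clu G a x w y e A B Z Q ∧
      (∃ z ∈ Z, z ≠ e) ∧ ∀ x' y' e' A' B' Z' Q', Clu G a x' w y' e' A' B' Z' Q' →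
        (∃ z ∈ Z', z ≠ e') → Z'.card ≤ Z.card := by
    let P : ℕ → Prop := fun l => ∃ x y e A B Z Q, Clu G a x w y e A B Z Q ∧
      (∃ z ∈ Z, z ≠ e) ∧ Z.card = l
    have hP : ∀ l, P l → l ≤ a := by
      rintro l ⟨x, y, e, A, B, Z, Q, c, _, hl⟩
      have := c.str.small
      omega
    obtain ⟨x₀, hx₀⟩ := hR0
    obtain ⟨y, e, A, B, Z, Q, c, hz⟩ := hR x₀ hx₀
    have hP0 : P Z.card := ⟨x₀, y, e, A, B, Z, Q, c, hz, rfl⟩
    have h1 := Nat.findGreatest_spec (hP _ hP0) hP0
    obtain ⟨x, y, e, A, B, Z, Q, c, hz, hl⟩ := h1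
    refine ⟨x, y, e, A, B, Z, Q, c, hz, ?_⟩
    intro x' y' e' A' B' Z' Q' c' hz'
    have hP' : P Z'.card := ⟨x', y', e', A', B', Z', Q', c', hz', rfl⟩
    rw [hl]
    exact Nat.le_findGreatest (hP _ hP') hP'
  have hxX : x ∈ X := by
    rw [hX, mem_filter, mem_N]
    exact ⟨c.wx, x, y, e, A, B, Z, Q, c, ⟨z, hz, hze⟩, c.xQ⟩
  have hadj : ∀ z ∈ Z, G.Adj w z := fun z hz => (c.str.wZ z (c.str.ZB hz)).2 hz
  have hZY : Z.erase e ⊆ N G w \ X := by
    intro z hz
    rw [mem_erase] at hz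
    rw [mem_sdiff, mem_N]
    refine ⟨hadj z hz.2, ?_⟩
    rw [hX, mem_filter]
    rintro ⟨_, x', y', e', A', B', Z', Q', c', ⟨z', hz', hze'⟩, hq⟩
    exact cross (by omega) c c' hz.2 hz.1 hz' hze' hq
  have hiso : ∀ z ∈ Z.erase e, N G z ∩ (N G w \ X) = ∅ := by
    intro z hz
    rw [mem_erase] at hz
    rw [eq_empty_iff_forall_notMem]
    intro v hv
    rw [mem_inter, mem_N, mem_sdiff, mem_N] at hv
    rcases c.nz hz.2 hz.1 hv.1 with h | h | h
    · rw [h] at hv
      exact G.loopless.irrefl _ hv.2.1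
    · exact c.str.wA v h hv.2.1
    · apply hv.2.2
      rw [hX, mem_filter, mem_N]
      exact ⟨hv.2.1, x, y, e, A, B, Z, Q, c, ⟨z, hz.2, hz.1⟩, h⟩
  have hTY : ∀ (U Y : Finset V), U ⊆ Y → (∀ z ∈ U, N G z ∩ Y = ∅) → TT G Y = TT G (Y \ U) := by
    intro U
    induction U using Finset.induction_on with
    | empty => intro Y _ _; rw [sdiff_empty]
    | insert u U hu ih =>
      intro Y hUY hiso
      have h1 : u ∈ Y := hUY (mem_insert_self _ _)
      have h2 : TT G Y = TT G (Y.erase u) := by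
        conv_lhs => rw [← insert_erase h1]
        rw [TT_insert (notMem_erase _ _)]
        have : N G u ∩ Y.erase u = ∅ := by
          rw [← subset_empty, ← hiso u (mem_insert_self _ _)]
          exact inter_subset_inter_left (erase_subset _ _)
        rw [this, card_empty]
        rfl
      rw [h2, ih (Y.erase u)]
      · congr 1
        ext v
        simp only [mem_sdiff, mem_erase, mem_insert]
        tauto
      · intro v hv
        rw [mem_erase]
        exact ⟨fun h => hu (h ▸ hv), hUY (mem_insert_of_mem hv)⟩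
      · intro v hv
        rw [← subset_empty, ← hiso v (mem_insert_of_mem hv)]
        exact inter_subset_inter_left (erase_subset _ _)
  have hTT := hTY _ _ hZY hiso
  have htf : TF G ((N G w \ X) \ Z.erase e) := (hK.tf w).mono (sdiff_subset.trans sdiff_subset)
  have hm := mantel htf
  rw [← hTT] at hm
  have hcard := card_sdiff_add_card_eq_card hXs
  have hcard2 := card_sdiff_add_card_eq_card hZY
  have hdw := hd w
  have hL1 : 1 ≤ (Z.erase e).card := card_pos.2 ⟨z, mem_erase.2 ⟨hze, hz⟩⟩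
  have hL2 : Z.card - 1 ≤ (Z.erase e).card := pred_card_le_card_erase
  have hL3 : (Z.erase e).card ≤ Z.card := card_le_card (erase_subset _ _)
  apply num_w (l := Z.card) (L := (Z.erase e).card) (f := X.card)
    (p := ((N G w \ X) \ Z.erase e).card) ha (by omega) c.str.small hL1 (by omega) hL3
    (by omega) (card_le_card hRX)
    (σ := ∑ v ∈ X, dg G (N G w) v) (τ := ∑ v ∈ X, (N G v ∩ (N G w \ X)).card) _ _ _ hm
  · rw [T_eq, TT_split hXs]
  · have h1 : R.card = ∑ v ∈ X, if v ∈ R then 1 else 0 := by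
      rw [← card_filter]
      congr 1
      ext v
      rw [mem_filter]
      constructor
      · intro hv
        exact ⟨hRX hv, hv⟩
      · exact fun h => h.2
    rw [h1, ← sum_add_distrib, ← smul_eq_mul (a := X.card)]
    apply sum_le_card_nsmul
    intro q hq
    split_ifs with hqR
    · obtain ⟨y', e', A', B', Z', Q', c', hz'⟩ := hR q hqR
      have h2 := hmax q y' e' A' B' Z' Q' c' hz'
      have h3 := c'.cd_x
      unfold dg
      omega
    · rw [hX, mem_filter, mem_N] at hq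
      obtain ⟨hq1, x', y', e', A', B', Z', Q', c', hz', hq2⟩ := hq
      have h2 := hmax x' y' e' A' B' Z' Q' c' hz'
      have h3 := c'.cd_le hd hq2 hq1
      unfold dg
      omega
  · apply sum_le_sum
    intro v _
    exact card_le_card (inter_subset_inter_left sdiff_subset)
  · rw [← smul_eq_mul]
    apply sum_le_card_nsmul
    intro v _
    refine (card_le_card inter_subset_right).trans ?_
    omega

/-! ### The total -/

lemma DD_bad_ge {a : ℕ} (hd : ∀ x, (N G x).card ≤ 2 * a + 1) (hK : K4F G) {x : V}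
    (hT : T G x = 2 * a ^ 2 + 2) : -(2 * (3 * a + 3) : ℤ) ≤ DD G a x := by
  refine le_trans ?_ (DD_ge hd hK x)
  rw [hT]
  push_cast
  have : (0 : ℤ) ≤ S G a x := by positivity
  nlinarith

lemma bad_struct {a : ℕ} (ha : 9 ≤ a) (hd : ∀ x, (N G x).card ≤ 2 * a + 1) (hK : K4F G) {x : V}
    (hneg : DD G a x < 0) : T G x = 2 * a ^ 2 + 2 ∧
      ∃ w y e A B Z Q, Clu G a x w y e A B Z Q ∧ ∃ z ∈ Z, z ≠ e := by
  have h1 : 2 * a ^ 2 + 2 ≤ T G x := by
    by_contra hcon
    push Not at hcon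
    obtain ⟨k, hk⟩ := TT_even (G := G) (N G x)
    rw [← T_eq] at hk
    have := DD_few hd hK (x := x) (a := a) (by omega)
    omega
  rw [T_eq] at h1
  rcases struct (by omega) (hK.tf x) (hd x) h1 with ⟨P, hP, h2, h3⟩ | ⟨w, y, A, B, Z, h⟩
  · exact absurd (DD_bip hd hK hP h2 h3) (by omega)
  · have hT : T G x = 2 * a ^ 2 + 2 := by rw [T_eq, h.tt]
    refine ⟨hT, w, ?_⟩
    exact exists_clu ha hd hK h (fewLight hT hneg)

open Classical in
/-- **The bound for the number of triangles.** -/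
theorem sum_T_le {a : ℕ} (ha : 13 ≤ a) (hd : ∀ x, (N G x).card ≤ 2 * a + 1) (hK : K4F G) :
    (3 * a + 1) * (∑ x, T G x) ≤ 6 * a ^ 2 * (a + 1) * Fintype.card V := by
  have hch : ∀ x, ∃ w, DD G a x < 0 →
      ∃ y e A B Z Q, Clu G a x w y e A B Z Q ∧ ∃ z ∈ Z, z ≠ e := by
    intro x
    by_cases h : DD G a x < 0
    · obtain ⟨_, w, hw⟩ := bad_struct (by omega) hd hK h
      exact ⟨w, fun _ => hw⟩
    · exact ⟨x, fun h' => absurd h' h⟩
  choose wf hwf using hch
  set Bad : Finset V := univ.filter (fun x => DD G a x < 0) with hBad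
  have hcard : Bad.card = ∑ w, (Bad.filter (fun x => wf x = w)).card :=
    card_eq_sum_card_fiberwise (fun x _ => mem_coe.2 (mem_univ _))
  have hloc : ∀ w, (2 * (3 * a + 3) : ℤ) * (Bad.filter (fun x => wf x = w)).card
      - (if DD G a w < 0 then (2 * (3 * a + 3) : ℤ) else 0) ≤ DD G a w := by
    intro w
    rcases eq_empty_or_nonempty (Bad.filter (fun x => wf x = w)) with h0 | ⟨x, hx⟩
    · rw [h0, card_empty]
      split_ifs with h
      · have := DD_bad_ge hd hK (bad_struct (by omega) hd hK h).1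
        push_cast
        linarith
      · push_cast
        linarith
    · have h1 := wbound ha hd hK (w := w) (R := Bad.filter (fun x => wf x = w)) ⟨x, hx⟩ (by
        intro x' hx'
        rw [mem_filter, hBad, mem_filter] at hx'
        obtain ⟨⟨_, hx1'⟩, hx2'⟩ := hx'
        have hx3' := hwf x' hx1'
        rw [hx2'] at hx3'
        exact hx3')
      have h4 := DD_few' (r := (Bad.filter (fun x => wf x = w)).card) hd hK (x := w) (a := a)
        (by omega)
      refine le_trans ?_ h4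
      have : (0 : ℤ) ≤ if DD G a w < 0 then (2 * (3 * a + 3) : ℤ) else 0 := by
        split_ifs <;> positivity
      linarith
  have hsum : 0 ≤ ∑ w, DD G a w := by
    have h1 := sum_le_sum (fun w (_ : w ∈ (univ : Finset V)) => hloc w)
    rw [sum_sub_distrib, ← mul_sum, ← sum_filter, sum_const, ← Nat.cast_sum, ← hcard] at h1
    refine le_trans (le_of_eq ?_) h1
    rw [nsmul_eq_mul]
    ring
  rw [sum_DD] at hsum
  zify
  linarith

end Pool.Agent.H46.KT3
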