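import Pool.Agent.H46.KT3.Base

/-!
# The discharging quantities
-/

open Finset

namespace Pool.Agent.H46.KT3

variable {V : Type*} [Fintype V] [DecidableEq V] (G : SimpleGraph V) [DecidableRel G.Adj]

/-- The codegree. -/
def cd (x y : V) : ℕ := (N G x ∩ N G y).card

/-- Heavy pairs. -/
def hv (a : ℕ) (x y : V) : Prop := a + 1 ≤ cd G x y

instance (a : ℕ) (x y : V) : Decidable (hv G a x y) := inferInstanceAs (Decidable (_ ≤ _))

/-- `x y z` is a triangle. -/
def tri (x y z : V) : Prop := G.Adj x y ∧ G.Adj x z ∧ G.Adj y z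

instance (x y z : V) : Decidable (tri G x y z) := inferInstanceAs (Decidable (_ ∧ _ ∧ _))

/-- Twice the number of triangles at `x`. -/
def T (x : V) : ℕ := ∑ y, ∑ z, if tri G x y z then 1 else 0

/-- Sum of the codegrees of the heavy edges at `x`. -/
def S (a : ℕ) (x : V) : ℕ := ∑ y, ∑ z, if tri G x y z ∧ hv G a x y then 1 else 0

/-- Twice the number of heavy edges inside the neighbourhood of `x`. -/
def H (a : ℕ) (x : V) : ℕ := ∑ y, ∑ z, if tri G x y z ∧ hv G a y z then 1 else 0

/-- Twice the discharged excess of `x`. -/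
def DD (a : ℕ) (x : V) : ℤ :=
  (3 * a + 1) * (2 * (a * (a + 1)) - T G x) + 2 * S G a x - 2 * (a * (a + 1)) - 2 * H G a x

variable {G}

lemma cd_comm (x y : V) : cd G x y = cd G y x := by
  unfold cd; rw [inter_comm]

lemma hv_comm {a : ℕ} {x y : V} : hv G a x y ↔ hv G a y x := by
  unfold hv; rw [cd_comm]

lemma T_eq (x : V) : T G x = TT G (N G x) := by
  have : ∀ y, (∑ z, if tri G x y z then 1 else 0) =
      if G.Adj x y then dg G (N G x) y else 0 := by
    intro y
    split_ifs with h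
    · rw [dg, ← card_filter]
      congr 1
      ext z
      rw [mem_filter, mem_inter, mem_N, mem_N]
      simp only [mem_univ, true_and]
      unfold tri
      tauto
    · apply sum_eq_zero
      intro z _
      rw [if_neg]
      exact fun h' => h h'.1
  unfold T TT
  simp_rw [this]
  rw [← sum_filter]
  apply sum_congr _ (fun _ _ => rfl)
  ext y
  simp [mem_N]

lemma sum_S_eq_sum_H (a : ℕ) : ∑ x, S G a x = ∑ x, H G a x := by
  unfold S H
  have h1 : ∑ x, ∑ y, ∑ z, (if tri G x y z ∧ hv G a y z then 1 else 0)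
      = ∑ y, ∑ z, ∑ x, (if tri G x y z ∧ hv G a y z then 1 else 0) := by
    rw [sum_comm]
    apply sum_congr rfl
    intro y _
    rw [sum_comm]
  rw [h1]
  apply sum_congr rfl
  intro x _
  apply sum_congr rfl
  intro y _
  apply sum_congr rfl
  intro z _
  apply if_congr _ rfl rfl
  unfold tri
  constructor
  · rintro ⟨⟨h1, h2, h3⟩, h4⟩
    exact ⟨⟨h2.symm, h3.symm, h1⟩, h4⟩
  · rintro ⟨⟨h1, h2, h3⟩, h4⟩
    exact ⟨⟨h3, h1.symm, h2.symm⟩, h4⟩

lemma cd_add {D : ℕ} (hd : ∀ x, (N G x).card ≤ D) (hK : K4F G) {x y z : V}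
    (h : tri G x y z) : cd G x y + cd G x z ≤ D := by
  obtain ⟨h1, h2, h3⟩ := h
  unfold cd
  rw [← card_union_of_disjoint]
  · exact (card_le_card (union_subset inter_subset_left inter_subset_left)).trans (hd x)
  · rw [disjoint_left]
    intro w hw hw'
    rw [mem_inter, mem_N, mem_N] at hw hw'
    exact hK x y z w h1 h2 hw.1 h3 hw.2 hw'.2

lemma tri_rot {x y z : V} (h : tri G x y z) : tri G y x z := ⟨h.1.symm, h.2.2, h.2.1⟩

lemma tri_swap {x y z : V} (h : tri G x y z) : tri G x z y := ⟨h.2.1, h.1, h.2.2.symm⟩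

lemma not_two {a : ℕ} (hd : ∀ x, (N G x).card ≤ 2 * a + 1) (hK : K4F G) {x y z : V}
    (h : tri G x y z) (h1 : hv G a x y) (h2 : hv G a x z) : False := by
  have := cd_add hd hK h
  unfold hv at h1 h2
  omega

lemma two_S_add_H_le {a : ℕ} (hd : ∀ x, (N G x).card ≤ 2 * a + 1) (hK : K4F G) (x : V) :
    2 * S G a x + H G a x ≤ T G x := by
  have h1 : S G a x = ∑ y, ∑ z, if tri G x y z ∧ hv G a x z then 1 else 0 := by
    unfold S
    rw [sum_comm]
    apply sum_congr rfl
    intro y _
    apply sum_congr rfl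
    intro z _
    apply if_congr _ rfl rfl
    constructor
    · rintro ⟨h, h'⟩; exact ⟨tri_swap h, h'⟩
    · rintro ⟨h, h'⟩; exact ⟨tri_swap h, h'⟩
  have h2 : 2 * S G a x + H G a x = ∑ y, ∑ z, ((if tri G x y z ∧ hv G a x y then 1 else 0)
      + (if tri G x y z ∧ hv G a x z then 1 else 0)
      + (if tri G x y z ∧ hv G a y z then 1 else 0)) := by
    simp_rw [sum_add_distrib]
    rw [← h1, two_mul]
    rfl
  rw [h2]
  unfold T
  apply sum_le_sum
  intro y _
  apply sum_le_sum
  intro z _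
  by_cases ht : tri G x y z
  · have e1 : ¬ (hv G a x y ∧ hv G a x z) := fun h => not_two hd hK ht h.1 h.2
    have e2 : ¬ (hv G a x y ∧ hv G a y z) := fun h =>
      not_two hd hK (tri_rot ht) (hv_comm.1 h.1) h.2
    have e3 : ¬ (hv G a x z ∧ hv G a y z) := fun h =>
      not_two hd hK (tri_rot (tri_swap ht)) (hv_comm.1 h.1) (hv_comm.1 h.2)
    by_cases c1 : hv G a x y <;> by_cases c2 : hv G a x z <;> by_cases c3 : hv G a y z <;>
      simp_all
  · simp [ht]

lemma S_eq (a : ℕ) (x : V) : S G a x = ∑ y ∈ N G x, if a + 1 ≤ dg G (N G x) y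
    then dg G (N G x) y else 0 := by
  have h0 : ∀ y, cd G x y = dg G (N G x) y := by
    intro y; unfold cd dg; rw [inter_comm]
  have : ∀ y, (∑ z, if tri G x y z ∧ hv G a x y then 1 else 0) =
      if G.Adj x y then (if a + 1 ≤ dg G (N G x) y then dg G (N G x) y else 0) else 0 := by
    intro y
    split_ifs with h h'
    · rw [dg, ← card_filter]
      congr 1
      ext z
      simp only [mem_filter, mem_univ, true_and, mem_inter, mem_N, tri, hv, h0 y]
      tauto
    · apply sum_eq_zero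
      intro z _
      rw [if_neg]
      intro h2
      apply h'
      rw [← h0]
      exact h2.2
    · apply sum_eq_zero
      intro z _
      rw [if_neg]
      exact fun h' => h h'.1.1
  unfold S
  simp_rw [this]
  rw [← sum_filter]
  apply sum_congr _ (fun _ _ => rfl)
  ext y
  simp [mem_N]

lemma sum_DD (a : ℕ) : ∑ x, DD G a x =
    6 * a ^ 2 * (a + 1) * (Fintype.card V) - (3 * a + 1) * (∑ x, (T G x : ℤ)) := by
  have h1 : ∑ x, (S G a x : ℤ) = ∑ x, (H G a x : ℤ) := by
    have := sum_S_eq_sum_H (G := G) a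
    exact_mod_cast this
  unfold DD
  simp only [sum_sub_distrib, sum_add_distrib, ← mul_sum, h1, sum_const, card_univ, nsmul_eq_mul]
  ring

lemma DD_ge {a : ℕ} (hd : ∀ x, (N G x).card ≤ 2 * a + 1) (hK : K4F G) (x : V) :
    (3 * a + 3) * (2 * (a * (a + 1)) - (T G x : ℤ)) + 6 * S G a x - 6 * (a * (a + 1))
      ≤ DD G a x := by
  have h := two_S_add_H_le hd hK x
  have h' : (2 * S G a x + H G a x : ℤ) ≤ T G x := by exact_mod_cast h
  unfold DD
  nlinarith

end Pool.Agent.H46.KT3
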