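import Pool.Agent.H46.KT3.Turan

/-!
# The maximal density of triangles in `K₄`-free graphs of bounded degree
-/

open Finset

namespace Pool.Agent.H46.KT3

lemma deg_N {m D : ℕ} (H : SimpleGraph (Fin m)) [DecidableRel H.Adj]
    (h : ∀ v, (H.neighborSet v).ncard ≤ D) (v : Fin m) : (N H v).card ≤ D := by
  have h1 : ((N H v : Finset (Fin m)) : Set (Fin m)) = H.neighborSet v := by
    ext w
    rw [mem_coe, mem_N, SimpleGraph.mem_neighborSet]
  rw [← Set.ncard_coe_finset, h1]
  exact h v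

lemma k4f_of_cliqueFree {V : Type*} [DecidableEq V] (H : SimpleGraph V) (h : H.CliqueFree 4) :
    K4F H := by
  intro x y z w h1 h2 h3 h4 h5 h6
  have h7 : H.IsNClique 3 {y, z, w} := SimpleGraph.is3Clique_triple_iff.2 ⟨h4, h5, h6⟩
  apply h (insert x {y, z, w})
  apply h7.insert
  intro b hb
  rw [mem_insert, mem_insert, mem_singleton] at hb
  rcases hb with rfl | rfl | rfl
  · exact h1
  · exact h2
  · exact h3

/-- Even maximum degree. -/
lemma even_bound {m a : ℕ} (H : SimpleGraph (Fin m)) (hd : ∀ v, (H.neighborSet v).ncard ≤ 2 * a)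
    (hK : H.CliqueFree 4) :
    {s : Finset (Fin m) | H.IsNClique 3 s}.ncard * (3 * a) ≤ a ^ 3 * m := by
  classical
  have h1 : ∀ x, T H x ≤ 2 * a ^ 2 := by
    intro x
    have h2 := mantel ((k4f_of_cliqueFree H hK).tf x)
    rw [← T_eq] at h2
    have h3 := Nat.pow_le_pow_left (deg_N H hd x) 2
    nlinarith
  have h2 := sum_le_sum (fun x (_ : x ∈ (univ : Finset (Fin m))) => h1 x)
  rw [six_tri, sum_const, card_univ, Fintype.card_fin, smul_eq_mul] at h2
  nlinarith [Nat.mul_le_mul_left a h2]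

/-- Odd maximum degree. -/
lemma odd_bound {m a : ℕ} (ha : 13 ≤ a) (H : SimpleGraph (Fin m))
    (hd : ∀ v, (H.neighborSet v).ncard ≤ 2 * a + 1) (hK : H.CliqueFree 4) :
    {s : Finset (Fin m) | H.IsNClique 3 s}.ncard * (3 * a + 1) ≤ a ^ 2 * (a + 1) * m := by
  classical
  have h := sum_T_le ha (deg_N H hd) (k4f_of_cliqueFree H hK)
  rw [six_tri, Fintype.card_fin] at h
  nlinarith

lemma tur_even (a : ℕ) :
    {s : Finset (Fin (3 * a)) | (SimpleGraph.turanGraph (3 * a) 3).IsNClique 3 s}.ncard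
      = a ^ 3 := by
  rw [num_tri_tur, card_C_three a 0 (by omega), card_C_three a 1 (by omega),
    card_C_three a 2 (by omega)]
  ring

lemma tur_odd (a : ℕ) :
    {s : Finset (Fin (3 * a + 1)) | (SimpleGraph.turanGraph (3 * a + 1) 3).IsNClique 3 s}.ncard
      = a ^ 2 * (a + 1) := by
  rw [num_tri_tur, card_C_three_one a 0 (by omega), card_C_three_one a 1 (by omega),
    card_C_three_one a 2 (by omega)]
  norm_num
  ring

lemma deg_tur_even (a : ℕ) (v : Fin (3 * a)) :
    ((SimpleGraph.turanGraph (3 * a) 3).neighborSet v).ncard ≤ 2 * a := by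
  have h1 : ((N (SimpleGraph.turanGraph (3 * a) 3) v : Finset (Fin (3 * a))) :
      Set (Fin (3 * a))) = (SimpleGraph.turanGraph (3 * a) 3).neighborSet v := by
    ext w
    rw [mem_coe, mem_N, SimpleGraph.mem_neighborSet]
  rw [← h1, Set.ncard_coe_finset, N_tur (3 * a) rfl]
  refine (card_union_le _ _).trans ?_
  rw [card_C_three a _ (Nat.mod_lt _ (by omega)), card_C_three a _ (Nat.mod_lt _ (by omega))]
  omega

lemma deg_tur_odd (a : ℕ) (v : Fin (3 * a + 1)) :
    ((SimpleGraph.turanGraph (3 * a + 1) 3).neighborSet v).ncard ≤ 2 * a + 1 := by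
  have h1 : ((N (SimpleGraph.turanGraph (3 * a + 1) 3) v : Finset (Fin (3 * a + 1))) :
      Set (Fin (3 * a + 1))) = (SimpleGraph.turanGraph (3 * a + 1) 3).neighborSet v := by
    ext w
    rw [mem_coe, mem_N, SimpleGraph.mem_neighborSet]
  rw [← h1, Set.ncard_coe_finset, N_tur (3 * a + 1) rfl]
  refine (card_union_le _ _).trans ?_
  rw [card_C_three_one a _ (Nat.mod_lt _ (by omega)), card_C_three_one a _ (Nat.mod_lt _ (by omega))]
  split_ifs <;> omega

lemma zero_cliques {m t : ℕ} (ht : 4 ≤ t) (H : SimpleGraph (Fin m)) (hK : H.CliqueFree 4) :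
    {s : Finset (Fin m) | H.IsNClique t s}.ncard = 0 := by
  have : {s : Finset (Fin m) | H.IsNClique t s} = ∅ := by
    rw [Set.eq_empty_iff_forall_notMem]
    intro s hs
    exact (hK.mono ht) s hs
  rw [this, Set.ncard_empty]

end Pool.Agent.H46.KT3
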