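import Pool.Agent.H46.KT3.Bip

/-!
# Nearly extremal triangle-free graphs on `2 a + 1` vertices
-/

open Finset

namespace Pool.Agent.H46.KT3

variable {V : Type*} [Fintype V] [DecidableEq V] {G : SimpleGraph V} [DecidableRel G.Adj]

/-- The set `W` splits into two independent sets. -/
def Bip (G : SimpleGraph V) (W : Finset V) : Prop := ∃ P ⊆ W, Ind G P ∧ Ind G (W \ P)

/-- The graph inside `W` is the blow-up of the five-cycle `w y (B \ Z) A Z`. -/
structure Str (G : SimpleGraph V) (a : ℕ) (W : Finset V) (w y : V) (A B Z : Finset V) : Prop where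
  mem : ∀ v, v ∈ W ↔ v = w ∨ v = y ∨ v ∈ A ∨ v ∈ B
  wy : G.Adj w y
  wA' : w ∉ A
  wB' : w ∉ B
  yA' : y ∉ A
  yB' : y ∉ B
  disj : Disjoint A B
  cA : A.card + 1 = a
  cB : B.card = a
  ZB : Z ⊆ B
  Z0 : Z.Nonempty
  AA : ∀ u ∈ A, ∀ v ∈ A, ¬ G.Adj u v
  BB : ∀ u ∈ B, ∀ v ∈ B, ¬ G.Adj u v
  AB : ∀ u ∈ A, ∀ v ∈ B, G.Adj u v
  wA : ∀ u ∈ A, ¬ G.Adj w u
  wZ : ∀ u ∈ B, (G.Adj w u ↔ u ∈ Z)
  yA : ∀ u ∈ A, ¬ G.Adj y u
  yZ : ∀ u ∈ B, (G.Adj y u ↔ u ∉ Z)
  small : 2 * Z.card ≤ a

lemma Bip.mk' {W P Q : Finset V} (h : ∀ v ∈ W, v ∈ P ∨ v ∈ Q) (h1 : Ind G P) (h2 : Ind G Q) :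
    Bip G W := by
  refine ⟨W ∩ P, inter_subset_left, ?_, ?_⟩
  · intro u hu v hv
    exact h1 u (mem_inter.1 hu).2 v (mem_inter.1 hv).2
  · intro u hu v hv
    rw [mem_sdiff, mem_inter] at hu hv
    have hu' : u ∈ Q := by
      rcases h u hu.1 with h' | h'
      · exact absurd ⟨hu.1, h'⟩ hu.2
      · exact h'
    have hv' : v ∈ Q := by
      rcases h v hv.1 with h' | h'
      · exact absurd ⟨hv.1, h'⟩ hv.2
      · exact h'
    exact h2 u hu' v hv'

lemma struct_one {a : ℕ} {W P1 P2 : Finset V} {v y1 : V} (ha : 1 ≤ a)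
    (hW : ∀ u, u ∈ W ↔ u = v ∨ u ∈ P1 ∨ u ∈ P2) (hv1 : v ∉ P1) (hv2 : v ∉ P2)
    (hd : Disjoint P1 P2) (c1 : P1.card = a) (c2 : P2.card = a) (i1 : Ind G P1) (i2 : Ind G P2)
    (hy1 : y1 ∈ P1) (hV1 : ∀ u ∈ P1, (G.Adj v u ↔ u = y1)) (hV2 : ∃ u ∈ P2, G.Adj v u)
    (hc : ∀ u ∈ P1, ∀ u' ∈ P2, (G.Adj u u' ↔ ¬ (G.Adj v u ∧ G.Adj v u'))) :
    Bip G W ∨ ∃ w y A B Z, Str G a W w y A B Z := by
  have hy2 : y1 ∉ P2 := fun h => disjoint_left.1 hd hy1 h
  have hvy : G.Adj v y1 := (hV1 y1 hy1).2 rfl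
  by_cases hall : ∀ u ∈ P2, G.Adj v u
  · left
    apply Bip.mk' (P := insert v (P1.erase y1)) (Q := insert y1 P2)
    · intro u hu
      rcases (hW u).1 hu with h | h | h
      · left; rw [h]; exact mem_insert_self _ _
      · by_cases hu' : u = y1
        · right; rw [hu']; exact mem_insert_self _ _
        · left; exact mem_insert_of_mem (mem_erase.2 ⟨hu', h⟩)
      · right; exact mem_insert_of_mem h
    · intro u hu z hz huz
      rw [mem_insert, mem_erase] at hu hz
      rcases hu with rfl | hu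
      · rcases hz with rfl | hz
        · exact G.loopless.irrefl _ huz
        · exact hz.1 ((hV1 z hz.2).1 huz)
      · rcases hz with rfl | hz
        · exact hu.1 ((hV1 u hu.2).1 huz.symm)
        · exact i1 u hu.2 z hz.2 huz
    · intro u hu z hz huz
      rw [mem_insert] at hu hz
      rcases hu with rfl | hu
      · rcases hz with rfl | hz
        · exact G.loopless.irrefl _ huz
        · exact (hc u hy1 z hz).1 huz ⟨hvy, hall z hz⟩
      · rcases hz with rfl | hz
        · exact (hc z hy1 u hu).1 huz.symm ⟨hvy, hall u hu⟩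
        · exact i2 u hu z hz huz
  · right
    push Not at hall
    obtain ⟨b, hb, hvb⟩ := hall
    set Z := P2.filter (fun u => G.Adj v u) with hZ
    have hZm : ∀ u, u ∈ Z ↔ u ∈ P2 ∧ G.Adj v u := fun u => by rw [hZ, mem_filter]
    have hcA : (P1.erase y1).card + 1 = a := by
      rw [card_erase_add_one hy1, c1]
    have hdisj : Disjoint (P1.erase y1) P2 := hd.mono_left (erase_subset _ _)
    have hAB : ∀ u ∈ P1.erase y1, ∀ z ∈ P2, G.Adj u z := by
      intro u hu z hz
      rw [mem_erase] at hu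
      rw [hc u hu.2 z hz]
      rintro ⟨h1, _⟩
      exact hu.1 ((hV1 u hu.2).1 h1)
    have hAA : ∀ u ∈ P1.erase y1, ∀ z ∈ P1.erase y1, ¬ G.Adj u z := fun u hu z hz =>
      i1 u (mem_of_mem_erase hu) z (mem_of_mem_erase hz)
    have hvA : ∀ u ∈ P1.erase y1, ¬ G.Adj v u := by
      intro u hu h
      rw [mem_erase] at hu
      exact hu.1 ((hV1 u hu.2).1 h)
    have hyA : ∀ u ∈ P1.erase y1, ¬ G.Adj y1 u := fun u hu =>
      i1 y1 hy1 u (mem_of_mem_erase hu)
    have hyP : ∀ u ∈ P2, (G.Adj y1 u ↔ u ∉ Z) := by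
      intro u hu
      rw [hc y1 hy1 u hu, hZm]
      tauto
    have hvP : ∀ u ∈ P2, (G.Adj v u ↔ u ∈ Z) := by
      intro u hu
      rw [hZm]
      tauto
    by_cases hsz : 2 * Z.card ≤ a
    · refine ⟨v, y1, P1.erase y1, P2, Z, ?_⟩
      constructor
      · intro u
        rw [hW, mem_erase]
        constructor
        · rintro (h | h | h)
          · exact Or.inl h
          · by_cases hu : u = y1
            · exact Or.inr (Or.inl hu)
            · exact Or.inr (Or.inr (Or.inl ⟨hu, h⟩))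
          · exact Or.inr (Or.inr (Or.inr h))
        · rintro (h | h | h | h)
          · exact Or.inl h
          · rw [h]; exact Or.inr (Or.inl hy1)
          · exact Or.inr (Or.inl h.2)
          · exact Or.inr (Or.inr h)
      · exact hvy
      · exact fun h => hv1 (mem_of_mem_erase h)
      · exact hv2
      · exact fun h => (mem_erase.1 h).1 rfl
      · exact hy2
      · exact hdisj
      · exact hcA
      · exact c2
      · exact filter_subset _ _
      · obtain ⟨u, hu, hu'⟩ := hV2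
        exact ⟨u, (hZm u).2 ⟨hu, hu'⟩⟩
      · exact hAA
      · exact i2
      · exact hAB
      · exact hvA
      · exact hvP
      · exact hyA
      · exact hyP
      · exact hsz
    · refine ⟨y1, v, P1.erase y1, P2, P2 \ Z, ?_⟩
      have hZ' : ∀ u ∈ P2, (u ∈ P2 \ Z ↔ u ∉ Z) := fun u hu => by
        rw [mem_sdiff]; tauto
      constructor
      · intro u
        rw [hW, mem_erase]
        constructor
        · rintro (h | h | h)
          · exact Or.inr (Or.inl h)
          · by_cases hu : u = y1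
            · exact Or.inl hu
            · exact Or.inr (Or.inr (Or.inl ⟨hu, h⟩))
          · exact Or.inr (Or.inr (Or.inr h))
        · rintro (h | h | h | h)
          · rw [h]; exact Or.inr (Or.inl hy1)
          · exact Or.inl h
          · exact Or.inr (Or.inl h.2)
          · exact Or.inr (Or.inr h)
      · exact hvy.symm
      · exact fun h => (mem_erase.1 h).1 rfl
      · exact hy2
      · exact fun h => hv1 (mem_of_mem_erase h)
      · exact hv2
      · exact hdisj
      · exact hcA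
      · exact c2
      · exact sdiff_subset
      · exact ⟨b, mem_sdiff.2 ⟨hb, fun h => hvb ((hZm b).1 h).2⟩⟩
      · exact hAA
      · exact i2
      · exact hAB
      · exact hyA
      · intro u hu
        rw [hyP u hu, hZ' u hu]
      · exact hvA
      · intro u hu
        rw [hvP u hu, hZ' u hu, not_not]
      · have := card_sdiff_add_card_eq_card (s := Z) (t := P2) (filter_subset _ _)
        omega

lemma TT_insert {W : Finset V} {v : V} (hv : v ∉ W) :
    TT G (insert v W) = TT G W + 2 * (N G v ∩ W).card := by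
  have h1 : dg G (insert v W) v = (N G v ∩ W).card := by
    unfold dg
    congr 1
    ext z
    simp only [mem_inter, mem_N, mem_insert]
    constructor
    · rintro ⟨ha, rfl | hb⟩
      · exact absurd ha (G.loopless.irrefl _)
      · exact ⟨ha, hb⟩
    · rintro ⟨ha, hb⟩
      exact ⟨ha, Or.inr hb⟩
  have h2 : ∀ u ∈ W, dg G (insert v W) u = dg G W u + if G.Adj v u then 1 else 0 := by
    intro u hu
    unfold dg
    split_ifs with h
    · have : N G u ∩ insert v W = insert v (N G u ∩ W) := by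
        ext z
        simp only [mem_inter, mem_N, mem_insert]
        constructor
        · rintro ⟨ha, rfl | hb⟩
          · exact Or.inl rfl
          · exact Or.inr ⟨ha, hb⟩
        · rintro (rfl | ⟨ha, hb⟩)
          · exact ⟨h.symm, Or.inl rfl⟩
          · exact ⟨ha, Or.inr hb⟩
      rw [this, card_insert_of_notMem]
      exact fun h' => hv (mem_inter.1 h').2
    · rw [add_zero]
      congr 1
      ext z
      simp only [mem_inter, mem_N, mem_insert]
      constructor
      · rintro ⟨ha, rfl | hb⟩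
        · exact absurd ha.symm h
        · exact ⟨ha, hb⟩
      · rintro ⟨ha, hb⟩
        exact ⟨ha, Or.inr hb⟩
  unfold TT
  rw [sum_insert hv, h1, sum_congr rfl h2, sum_add_distrib, ← card_filter]
  have h3 : (W.filter (fun u => G.Adj v u)) = N G v ∩ W := by
    ext z
    simp only [mem_filter, mem_inter, mem_N]
    tauto
  rw [h3]
  ring

lemma num_struct {a e p1 p2 v1 v2 : ℕ} (h1 : a ^ 2 + 1 ≤ e + v1 + v2) (h2 : e + v1 * v2 ≤ p1 * p2)
    (h3 : p1 + p2 = 2 * a) (h4 : 1 ≤ v1) (h5 : 1 ≤ v2) :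
    p1 = a ∧ p2 = a ∧ e + v1 * v2 = a * a ∧ (v1 = 1 ∨ v2 = 1) := by
  obtain ⟨m1, rfl⟩ : ∃ m, v1 = m + 1 := ⟨v1 - 1, by omega⟩
  obtain ⟨m2, rfl⟩ : ∃ m, v2 = m + 1 := ⟨v2 - 1, by omega⟩
  have k1 : a ^ 2 + m1 * m2 ≤ p1 * p2 := by nlinarith
  have k2 : p1 = a := by
    by_contra hne
    zify at h3 k1
    have : (p2 : ℤ) = 2 * a - p1 := by linarith
    rw [this] at k1
    have h6 : ((p1 : ℤ) - a) ^ 2 ≤ 0 := by nlinarith [show (0 : ℤ) ≤ m1 * m2 by positivity]
    have h7 : (p1 : ℤ) - a = 0 := by nlinarith [sq_nonneg ((p1 : ℤ) - a)]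
    apply hne
    have : (p1 : ℤ) = a := by linarith
    exact_mod_cast this
  subst k2
  have k3 : p2 = p1 := by omega
  subst k3
  have k4 : m1 * m2 = 0 := by nlinarith
  refine ⟨rfl, rfl, ?_, ?_⟩
  · nlinarith
  · rcases Nat.mul_eq_zero.1 k4 with h | h
    · left; omega
    · right; omega

lemma struct_two {a : ℕ} (ha : 1 ≤ a) {W P1 P2 : Finset V} {v : V}
    (hW : ∀ u, u ∈ W ↔ u = v ∨ u ∈ P1 ∨ u ∈ P2) (hv1 : v ∉ P1) (hv2 : v ∉ P2)
    (hd : Disjoint P1 P2) (hcard : P1.card + P2.card = 2 * a) (i1 : Ind G P1) (i2 : Ind G P2)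
    (htf : TF G W) (hT : 2 * a ^ 2 + 2 ≤ TT G W) :
    Bip G W ∨ ∃ w y A B Z, Str G a W w y A B Z := by
  set V1 := N G v ∩ P1 with hV1
  set V2 := N G v ∩ P2 with hV2
  have hm1 : ∀ u, u ∈ V1 ↔ G.Adj v u ∧ u ∈ P1 := fun u => by rw [hV1, mem_inter, mem_N]
  have hm2 : ∀ u, u ∈ V2 ↔ G.Adj v u ∧ u ∈ P2 := fun u => by rw [hV2, mem_inter, mem_N]
  by_cases hn1 : V1 = ∅
  · left
    apply Bip.mk' (P := insert v P1) (Q := P2)
    · intro u hu
      rcases (hW u).1 hu with h | h | h
      · left; rw [h]; exact mem_insert_self _ _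
      · left; exact mem_insert_of_mem h
      · right; exact h
    · have hno : ∀ u ∈ P1, ¬ G.Adj v u := by
        intro u hu h
        have : u ∈ V1 := (hm1 u).2 ⟨h, hu⟩
        rw [hn1] at this
        exact absurd this (notMem_empty _)
      intro u hu z hz huz
      rw [mem_insert] at hu hz
      rcases hu with rfl | hu
      · rcases hz with rfl | hz
        · exact G.loopless.irrefl _ huz
        · exact hno z hz huz
      · rcases hz with rfl | hz
        · exact hno u hu huz.symm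
        · exact i1 u hu z hz huz
    · exact i2
  by_cases hn2 : V2 = ∅
  · left
    apply Bip.mk' (P := P1) (Q := insert v P2)
    · intro u hu
      rcases (hW u).1 hu with h | h | h
      · right; rw [h]; exact mem_insert_self _ _
      · left; exact h
      · right; exact mem_insert_of_mem h
    · exact i1
    · have hno : ∀ u ∈ P2, ¬ G.Adj v u := by
        intro u hu h
        have : u ∈ V2 := (hm2 u).2 ⟨h, hu⟩
        rw [hn2] at this
        exact absurd this (notMem_empty _)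
      intro u hu z hz huz
      rw [mem_insert] at hu hz
      rcases hu with rfl | hu
      · rcases hz with rfl | hz
        · exact G.loopless.irrefl _ huz
        · exact hno z hz huz
      · rcases hz with rfl | hz
        · exact hno u hu huz.symm
        · exact i2 u hu z hz huz
  have hne1 : 1 ≤ V1.card := card_pos.2 (nonempty_iff_ne_empty.2 hn1)
  have hne2 : 1 ≤ V2.card := card_pos.2 (nonempty_iff_ne_empty.2 hn2)
  have hWeq : W = insert v (P1 ∪ P2) := by
    ext u
    rw [hW, mem_insert, mem_union]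
  have hv12 : v ∉ P1 ∪ P2 := by
    rw [mem_union]
    rintro (h | h)
    · exact hv1 h
    · exact hv2 h
  have hsd : (P1 ∪ P2) \ P1 = P2 := union_sdiff_cancel_left hd
  have hTT : TT G W = 2 * (∑ u ∈ P1, (N G u ∩ P2).card) + 2 * (V1.card + V2.card) := by
    rw [hWeq, TT_insert hv12, bip_TT (P := P1) subset_union_left i1 (by rw [hsd]; exact i2)]
    congr 2
    · apply sum_congr rfl
      intro u hu
      unfold dg
      congr 1
      ext z
      simp only [mem_inter, mem_union, mem_N]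
      constructor
      · rintro ⟨h1, h2 | h2⟩
        · exact absurd h1 (i1 u hu z h2)
        · exact ⟨h1, h2⟩
      · rintro ⟨h1, h2⟩
        exact ⟨h1, Or.inr h2⟩
    · rw [inter_union_distrib_left, card_union_of_disjoint]
      rw [disjoint_left]
      intro z hz hz'
      exact disjoint_left.1 hd (mem_inter.1 hz).2 (mem_inter.1 hz').2
  have hP1W : ∀ u ∈ P1, u ∈ W := fun u hu => (hW u).2 (Or.inr (Or.inl hu))
  have hP2W : ∀ u ∈ P2, u ∈ W := fun u hu => (hW u).2 (Or.inr (Or.inr hu))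
  have hvW : v ∈ W := (hW v).2 (Or.inl rfl)
  have hsub : ∀ u ∈ V1, N G u ∩ P2 ⊆ P2 \ V2 := by
    intro u hu z hz
    rw [mem_inter, mem_N] at hz
    rw [mem_sdiff]
    refine ⟨hz.2, fun h => ?_⟩
    rw [hm1] at hu
    rw [hm2] at h
    exact htf v hvW u (hP1W u hu.2) z (hP2W z hz.2) hu.1 h.1 hz.1
  have hterm : ∀ u ∈ P1, (N G u ∩ P2).card + (if u ∈ V1 then V2.card else 0) ≤ P2.card := by
    intro u hu
    split_ifs with h
    · have h1 := card_le_card (hsub u h)
      have h2 := card_sdiff_add_card_eq_card (s := V2) (t := P2) inter_subset_right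
      omega
    · rw [add_zero]
      exact card_le_card inter_subset_right
  have hsumV : ∑ u ∈ P1, (if u ∈ V1 then V2.card else 0) = V1.card * V2.card := by
    rw [← sum_filter, sum_const, smul_eq_mul]
    congr 2
    ext u
    rw [mem_filter, hm1]
    tauto
  have hle : ∑ u ∈ P1, (N G u ∩ P2).card + V1.card * V2.card ≤ P1.card * P2.card := by
    rw [← hsumV, ← sum_add_distrib, ← smul_eq_mul]
    exact sum_le_card_nsmul _ _ _ hterm
  obtain ⟨q1, q2, q3, q4⟩ := num_struct (a := a) (e := ∑ u ∈ P1, (N G u ∩ P2).card)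
    (by omega) hle hcard hne1 hne2
  have heq : ∀ u ∈ P1, (N G u ∩ P2).card + (if u ∈ V1 then V2.card else 0) = P2.card := by
    have h1 : ∑ u ∈ P1, ((N G u ∩ P2).card + (if u ∈ V1 then V2.card else 0))
        = ∑ u ∈ P1, P2.card := by
      rw [sum_add_distrib, hsumV, q3, sum_const, smul_eq_mul, q1, q2]
    exact (sum_eq_sum_iff_of_le hterm).1 h1
  have hadj : ∀ u ∈ P1, ∀ u' ∈ P2, (G.Adj u u' ↔ ¬ (G.Adj v u ∧ G.Adj v u')) := by
    intro u hu u' hu'
    have h := heq u hu
    by_cases huV : u ∈ V1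
    · rw [if_pos huV] at h
      have h2 := card_sdiff_add_card_eq_card (s := V2) (t := P2) inter_subset_right
      have h3 : N G u ∩ P2 = P2 \ V2 := eq_of_subset_of_card_le (hsub u huV) (by omega)
      have h4 : u' ∈ N G u ∩ P2 ↔ u' ∈ P2 \ V2 := by rw [h3]
      rw [mem_inter, mem_N, mem_sdiff, hm2] at h4
      have h5 := ((hm1 u).1 huV).1
      tauto
    · rw [if_neg huV, add_zero] at h
      have h3 : N G u ∩ P2 = P2 := eq_of_subset_of_card_le inter_subset_right h.ge
      have h4 : u' ∈ N G u ∩ P2 ↔ u' ∈ P2 := by rw [h3]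
      rw [mem_inter, mem_N] at h4
      have h5 : ¬ G.Adj v u := fun h' => huV ((hm1 u).2 ⟨h', hu⟩)
      tauto
  rcases q4 with h | h
  · obtain ⟨y1, hy⟩ := card_eq_one.1 h
    have hy1 : y1 ∈ V1 := by rw [hy]; exact mem_singleton_self _
    apply struct_one (y1 := y1) ha hW hv1 hv2 hd q1 q2 i1 i2 ((hm1 _).1 hy1).2
    · intro u hu
      have h4 : u ∈ V1 ↔ u = y1 := by rw [hy, mem_singleton]
      rw [hm1] at h4
      tauto
    · obtain ⟨u, hu⟩ := card_pos.1 hne2
      exact ⟨u, ((hm2 u).1 hu).2, ((hm2 u).1 hu).1⟩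
    · exact hadj
  · obtain ⟨y1, hy⟩ := card_eq_one.1 h
    have hy1 : y1 ∈ V2 := by rw [hy]; exact mem_singleton_self _
    apply struct_one (y1 := y1) (P1 := P2) (P2 := P1) (v := v) ha ?_ hv2 hv1 hd.symm q2 q1 i2 i1
      ((hm2 _).1 hy1).2
    · intro u hu
      have h4 : u ∈ V2 ↔ u = y1 := by rw [hy, mem_singleton]
      rw [hm2] at h4
      tauto
    · obtain ⟨u, hu⟩ := card_pos.1 hne1
      exact ⟨u, ((hm1 u).1 hu).2, ((hm1 u).1 hu).1⟩
    · intro u hu u' hu'
      have := hadj u' hu' u hu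
      rw [G.adj_comm u u']
      tauto
    · intro u
      rw [hW]
      tauto

/-- **Structure lemma.** -/
lemma struct {a : ℕ} (ha : 1 ≤ a) {W : Finset V} (htf : TF G W) (hW : W.card ≤ 2 * a + 1)
    (hT : 2 * a ^ 2 + 2 ≤ TT G W) :
    Bip G W ∨ ∃ w y A B Z, Str G a W w y A B Z := by
  have hex : ∃ y ∈ W, ∃ z ∈ W, G.Adj y z ∧ 2 * a ≤ dg G W y + dg G W z := by
    by_contra hcon
    push Not at hcon
    have h1 := TT_bound (G := G) W (2 * a - 1) (fun u hu v hv huv => by
      have := hcon u hu v hv huv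
      omega)
    obtain ⟨b, rfl⟩ : ∃ b, a = b + 1 := ⟨a - 1, by omega⟩
    have h2 : W.card * (2 * (b + 1) - 1) ≤ (2 * (b + 1) + 1) * (2 * (b + 1) - 1) :=
      Nat.mul_le_mul_right _ hW
    rw [show 2 * (b + 1) - 1 = 2 * b + 1 by omega] at h1 h2
    nlinarith
  obtain ⟨y, hy, z, hz, hyz, hdeg⟩ := hex
  have hdis := htf.disj hy hz hyz
  have hsub : (N G y ∩ W) ∪ (N G z ∩ W) ⊆ W := union_subset inter_subset_right inter_subset_right
  have hcu : ((N G y ∩ W) ∪ (N G z ∩ W)).card = dg G W y + dg G W z := by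
    rw [card_union_of_disjoint hdis]; rfl
  have i1 : Ind G (N G y ∩ W) := htf.ind hy
  have i2 : Ind G (N G z ∩ W) := htf.ind hz
  by_cases hfull : (N G y ∩ W) ∪ (N G z ∩ W) = W
  · left
    apply Bip.mk' (P := N G y ∩ W) (Q := N G z ∩ W) _ i1 i2
    intro v hv
    rw [← hfull, mem_union] at hv
    exact hv
  · have h1 : ((N G y ∩ W) ∪ (N G z ∩ W)).card < W.card :=
      card_lt_card (Finset.ssubset_iff_subset_ne.2 ⟨hsub, hfull⟩)
    have h2 : dg G W y + dg G W z = 2 * a := by omega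
    have h3 : (W \ ((N G y ∩ W) ∪ (N G z ∩ W))).card = 1 := by
      have := card_sdiff_add_card_eq_card hsub
      omega
    obtain ⟨v, hv⟩ := card_eq_one.1 h3
    have hvm : ∀ u, u ∈ W \ ((N G y ∩ W) ∪ (N G z ∩ W)) ↔ u = v := fun u => by
      rw [hv, mem_singleton]
    have hv0 := (hvm v).2 rfl
    rw [mem_sdiff, mem_union, not_or] at hv0
    apply struct_two (v := v) (P1 := N G y ∩ W) (P2 := N G z ∩ W) ha ?_ hv0.2.1 hv0.2.2 hdis h2
      i1 i2 htf hT
    intro u
    have := hvm u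
    rw [mem_sdiff, mem_union] at this
    constructor
    · intro hu
      by_cases h : u ∈ N G y ∩ W ∨ u ∈ N G z ∩ W
      · exact Or.inr h
      · exact Or.inl (this.1 ⟨hu, h⟩)
    · rintro (rfl | h | h)
      · exact hv0.1
      · exact (mem_inter.1 h).2
      · exact (mem_inter.1 h).2

end Pool.Agent.H46.KT3
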