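import Pool.Agent.H46.KT3.Cross
import Pool.Agent.H23.KT.Tri3

/-!
# The Turán graph with three parts
-/

open Finset

namespace Pool.Agent.H46.KT3

open Pool.Agent.H23.KT (kc nb ncard_eq_kc six_kc)

/-- Six times the number of triangles. -/
lemma six_tri {m : ℕ} (H : SimpleGraph (Fin m)) [DecidableRel H.Adj] :
    ∑ x, T H x = 6 * {s : Finset (Fin m) | H.IsNClique 3 s}.ncard := by
  rw [ncard_eq_kc, six_kc]
  apply sum_congr rfl
  intro x _
  have hN : ∀ v, nb H univ v = N H v := by
    intro v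
    ext u
    rw [Pool.Agent.H23.KT.mem_nb, mem_N]
    simp
  have hN' : ∀ (W : Finset (Fin m)) v, nb H W v = N H v ∩ W := by
    intro W v
    ext u
    rw [Pool.Agent.H23.KT.mem_nb, mem_inter, mem_N]
    tauto
  rw [T_eq]
  unfold Pool.Agent.H23.KT.aa TT dg
  rw [hN]
  apply sum_congr rfl
  intro v _
  rw [hN']

/-- The residue classes. -/
def C (n i : ℕ) : Finset (Fin n) := univ.filter (fun v => v.1 % 3 = i)

lemma mem_C {n i : ℕ} {v : Fin n} : v ∈ C n i ↔ v.1 % 3 = i := by simp [C]

lemma card_C' (n i : ℕ) : (C n i).card = Nat.count (fun v => v % 3 = i) n := by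
  rw [Nat.count_eq_card_filter_range]
  apply card_bij (fun (v : Fin n) _ => v.1)
  · intro v hv
    rw [mem_C] at hv
    rw [mem_filter, mem_range]
    exact ⟨v.2, hv⟩
  · intro v _ w _ h
    exact Fin.ext h
  · intro v hv
    rw [mem_filter, mem_range] at hv
    exact ⟨⟨v, hv.1⟩, mem_C.2 hv.2, rfl⟩

lemma card_C_three (a i : ℕ) (hi : i < 3) : (C (3 * a) i).card = a := by
  induction a with
  | zero => rw [card_C']; simp
  | succ a ih =>
    rw [card_C'] at ih ⊢
    rw [show 3 * (a + 1) = 3 * a + 1 + 1 + 1 by ring, Nat.count_succ, Nat.count_succ,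
      Nat.count_succ, ih]
    have h0 : 3 * a % 3 = 0 := by omega
    have h1 : (3 * a + 1) % 3 = 1 := by omega
    have h2 : (3 * a + 1 + 1) % 3 = 2 := by omega
    rw [h0, h1, h2]
    interval_cases i <;> simp

lemma card_C_three_one (a i : ℕ) (hi : i < 3) :
    (C (3 * a + 1) i).card = if i = 0 then a + 1 else a := by
  rw [card_C', Nat.count_succ, ← card_C', card_C_three a i hi]
  have h0 : 3 * a % 3 = 0 := by omega
  rw [h0]
  interval_cases i <;> simp

section

variable (n : ℕ)

instance : DecidableRel (SimpleGraph.turanGraph n 3).Adj := fun v w =>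
  inferInstanceAs (Decidable (v.1 % 3 ≠ w.1 % 3))

lemma tur_adj {v w : Fin n} : (SimpleGraph.turanGraph n 3).Adj v w ↔ v.1 % 3 ≠ w.1 % 3 := Iff.rfl

lemma N_tur {v : Fin n} {i : ℕ} (hv : v.1 % 3 = i) :
    N (SimpleGraph.turanGraph n 3) v = C n ((i + 1) % 3) ∪ C n ((i + 2) % 3) := by
  ext w
  rw [mem_N, tur_adj, mem_union, mem_C, mem_C, hv]
  omega

lemma disj_C {i j : ℕ} (h : i ≠ j) : Disjoint (C n i) (C n j) := by
  rw [disjoint_left]
  intro v hv hv'
  rw [mem_C] at hv hv'
  omega

lemma T_tur {v : Fin n} {i : ℕ} (hv : v.1 % 3 = i) : T (SimpleGraph.turanGraph n 3) v =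
    2 * ((C n ((i + 1) % 3)).card * (C n ((i + 2) % 3)).card) := by
  rw [T_eq, N_tur n hv]
  have hne : (i + 1) % 3 ≠ (i + 2) % 3 := by omega
  have hsd : (C n ((i + 1) % 3) ∪ C n ((i + 2) % 3)) \ C n ((i + 1) % 3) = C n ((i + 2) % 3) :=
    union_sdiff_cancel_left (disj_C n hne)
  rw [bip_TT (P := C n ((i + 1) % 3)) subset_union_left]
  · rw [← smul_eq_mul (a := (C n ((i + 1) % 3)).card), ← sum_const]
    congr 1
    apply sum_congr rfl
    intro u hu
    unfold dg
    congr 1
    ext w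
    rw [mem_C] at hu
    rw [mem_inter, mem_N, tur_adj, mem_union, mem_C, mem_C, hu]
    omega
  · intro u hu w hw h
    rw [mem_C] at hu hw
    rw [tur_adj] at h
    omega
  · rw [hsd]
    intro u hu w hw h
    rw [mem_C] at hu hw
    rw [tur_adj] at h
    omega

lemma sum_T_tur : ∑ v, T (SimpleGraph.turanGraph n 3) v =
    6 * ((C n 0).card * (C n 1).card * (C n 2).card) := by
  have h1 : (univ : Finset (Fin n)) = C n 0 ∪ (C n 1 ∪ C n 2) := by
    ext v
    rw [mem_union, mem_union, mem_C, mem_C, mem_C]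
    simp only [mem_univ, true_iff]
    omega
  have h2 : Disjoint (C n 0) (C n 1 ∪ C n 2) := by
    rw [disjoint_union_right]
    exact ⟨disj_C n (by omega), disj_C n (by omega)⟩
  rw [h1, sum_union h2, sum_union (disj_C n (by omega))]
  rw [sum_congr rfl (fun v hv => T_tur n (mem_C.1 hv)),
    sum_congr rfl (fun v hv => T_tur n (mem_C.1 hv)),
    sum_congr rfl (fun v hv => T_tur n (mem_C.1 hv))]
  simp only [sum_const, smul_eq_mul]
  norm_num
  ring

lemma num_tri_tur : {s : Finset (Fin n) | (SimpleGraph.turanGraph n 3).IsNClique 3 s}.ncard =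
    (C n 0).card * (C n 1).card * (C n 2).card := by
  have h1 := six_tri (SimpleGraph.turanGraph n 3)
  rw [sum_T_tur] at h1
  omega

end

end Pool.Agent.H46.KT3
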